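import Pool.Agent.X261.MB.Main
import Pool.Agent.X261.MS.Ex

/-!
An example over the fields with `7 ^ r` elements.
-/

set_option autoImplicit false
set_option linter.all false

open Polynomial

namespace Pool.Agent.X261.MB

open Pool.Agent.X261.TW.Ex (evL addL smulL mulL ev_addL ev_smulL ev_mulL)
open Pool.Agent.X261.RO.Ce
open Pool.Agent.X261.MS (charP7 not_sq7)

/-- the coefficients -/
def cfE : List ℤ := [2, 3, 1, 5, 6, 6]

/-- the reductions of the iterated powers -/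
def HHE : List (List ℤ) := [[0, 1], [5, 2, 5, 4, 4], [6, 5, 1, 3, 1], [1, 4, 4, 1, 1],
  [1, 2, 4, 6, 1], [0, 1]]

/-- the quotients -/
def QQE : List (List ℤ) := [[1, 1, 6],
  [3, 0, 5, 1, 4, 0, 5, 4, 1, 0, 6, 0, 3, 2, 1, 0, 3, 6, 5, 0, 5, 4, 4, 3],
  [6, 3, 1, 6, 3, 5, 6, 1, 5, 2, 1, 6, 6, 3, 4, 2, 4, 5, 3, 0, 3, 1, 1, 6],
  [0, 6, 3, 0, 4, 0, 6, 2, 3, 6, 5, 0, 6, 4, 2, 0, 6, 5, 3, 0, 3, 1, 1, 6],
  [4, 4, 6, 0, 3, 2, 4, 0, 5, 6, 2, 1, 6, 5, 0, 5, 1, 5, 3, 0, 3, 1, 1, 6]]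

theorem allE : chkAll 7 cfE HHE QQE 5 = true := by decide +kernel

theorem oneE : chkOne 7 cfE (HHE.getD 1 []) [4, 2, 6, 4, 5] [1, 2, 2, 6] = true := by
  decide +kernel

section ex

variable {k : Type} [Field k]

theorem PE_eq : PB 2 (1 : k) (X + 1) (X - 1) =
    -X ^ 5 + 6 * X ^ 4 - 2 * X ^ 3 + 8 * X ^ 2 + 3 * X + 2 := by
  unfold PB
  rw [C_1]
  ring

theorem PE_deg : (PB 2 (1 : k) (X + 1) (X - 1)).natDegree = 5 := by
  rw [PE_eq]
  compute_degree!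

theorem PE_lc : (PB 2 (1 : k) (X + 1) (X - 1)).leadingCoeff = -1 := by
  rw [leadingCoeff, PE_deg, PE_eq]
  simp [coeff_X, coeff_ofNat_mul]

theorem PE_zero : (PB 2 (1 : k) (X + 1) (X - 1)).eval 0 = 2 := by
  rw [PE_eq]
  simp

theorem PE_irr [Finite k] {r : ℕ} (h : Nat.card k = 7 ^ r) (hr : r.Coprime 10) :
    Irreducible (PB 2 (1 : k) (X + 1) (X - 1)) := by
  haveI := charP7 h
  have h5 : r.Coprime 5 := Nat.Coprime.coprime_dvd_right (by norm_num) hr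
  refine irr_of (r := 7) h (n := 5) h5 PE_deg (by norm_num) fun F _ _ _ a ha d hd => ?_
  have h7 : (7 : F) = 0 := by
    have := CharP.cast_eq_zero F 7
    exact_mod_cast this
  have hev : evL cfE a = 0 := by
    rw [PE_eq] at ha
    simp only [map_add, map_sub, map_neg, map_mul, map_pow, aeval_X, map_ofNat] at ha
    simp only [cfE, evL]
    push_cast
    linear_combination ha + (a ^ 5 + a ^ 3 - a ^ 2) * h7
  refine dvd_of_pow (r := 7) (by norm_num) (pow_n allE hev) (fun l hl hl5 => ?_) hd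
  have hl' : l = 5 := (Nat.prime_dvd_prime_iff_eq hl (by norm_num)).1 hl5
  subst hl'
  exact pow_ne allE hev (by norm_num) oneE

end ex

end Pool.Agent.X261.MB
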