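import Pool.Agent.X261.MB.Lay
import Pool.Agent.X261.MB.Ex

/-!
The curves `x ^ (2 m) + α x ^ m + γ = t` with the sections `x = ξ ^ i a / b`, for the Kummer layers.
-/

set_option autoImplicit false
set_option linter.all false

open Polynomial IsDedekindDomain WithZero
open scoped nonZeroDivisors Classical

namespace Pool.Agent.X261.MB

open Pool.Agent.X261.TS
open Pool.Agent.X261.MS (f0 irr_kummer)

section fam

variable {k : Type} [Field k] {m : ℕ} {α γ ξ : k} {a b : k[X]}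

/-- `x ^ (2 m) + α x ^ m + γ`. -/
noncomputable def fG (m : ℕ) (α γ : k) : k[X] := X ^ (2 * m) + C α * X ^ m + C γ

/-- `P = a ^ (2 m) + α a ^ m b ^ m + b ^ (2 m) (γ - t)`. -/
noncomputable def PG (m : ℕ) (α γ : k) (a b : k[X]) : k[X] :=
  a ^ (2 * m) + C α * (a ^ m * b ^ m) + b ^ (2 * m) * (C γ - X)

theorem fG_monic (hm : 0 < m) (α γ : k) : (fG m α γ).Monic := by
  unfold fG
  rw [add_assoc]
  apply monic_X_pow_add
  refine lt_of_le_of_lt (degree_add_le _ _) (max_lt ?_ ?_)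
  · refine lt_of_le_of_lt (degree_C_mul_X_pow_le _ _) ?_
    exact_mod_cast (by omega : m < 2 * m)
  · refine lt_of_le_of_lt degree_C_le ?_
    exact_mod_cast (by omega : 0 < 2 * m)

theorem fG_deg (hm : 0 < m) (α γ : k) : (fG m α γ).natDegree = 2 * m := by
  unfold fG
  rw [natDegree_add_C]
  exact Pool.Agent.X261.MS.f0_deg hm

theorem fG_scale (hm : 0 < m) (b : k[X]) : (graph (fG m α γ)).scaleRoots b =
    X ^ (2 * m) + C (C α * b ^ m) * X ^ m + C (b ^ (2 * m) * (C γ - X)) := by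
  have hd : (graph (fG m α γ)).natDegree = 2 * m := by
    rw [natDegree_graph, fG_deg hm]
  ext1 n
  rw [coeff_scaleRoots, hd]
  unfold graph fG
  simp only [Polynomial.map_add, Polynomial.map_mul, Polynomial.map_pow, map_X, map_C, coeff_sub,
    coeff_add, coeff_C_mul, coeff_X_pow, coeff_C]
  by_cases h0 : n = 0
  · subst h0
    rw [if_neg (by omega), if_neg (by omega), if_pos rfl, if_pos rfl, if_pos rfl, Nat.sub_zero]
    ring
  · rw [if_neg h0, if_neg h0, if_neg h0]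
    by_cases h1 : n = 2 * m
    · subst h1
      rw [if_pos rfl, if_neg (by omega), Nat.sub_self]
      ring
    · rw [if_neg h1]
      by_cases h2 : n = m
      · subst h2
        rw [if_pos rfl, show 2 * n - n = n by omega]
        ring
      · rw [if_neg h2]
        ring

theorem fac_G (hm : 0 < m) (hξ : IsPrimitiveRoot ξ m) :
    (graph (fG m α γ)).scaleRoots b = C (PG m α γ a b) + ∏ i, gB m α ξ a b i := by
  rw [fG_scale hm, Fin.prod_univ_castSucc]
  simp only [gB_lt, gB_last]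
  have hξ' : IsPrimitiveRoot (C ξ : k[X]) m := hξ.map_of_injective C_injective
  have e1 : ∏ i : Fin m, (X - C (C (ξ ^ (i : ℕ)) * a)) = (X ^ m - C (a ^ m) : k[X][X]) := by
    rw [X_pow_sub_C_eq_prod hξ' hm rfl, ← Fin.prod_univ_eq_prod_range
      (fun i => X - C ((C ξ) ^ i * a)) m]
    refine Finset.prod_congr rfl fun i _ => ?_
    rw [C_pow]
  rw [e1]
  unfold PG
  simp only [C_add, C_sub, C_mul, C_pow]
  ring

theorem PG_dvd (hab : IsCoprime a b) (hP : Irreducible (PG m α γ a b)) (hm : 0 < m)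
    (h0 : (PG m α γ a b).eval γ ≠ 0) : ¬ PG m α γ a b ∣ b ∧ ¬ PG m α γ a b ∣ a := by
  have hPp := hP.prime
  have h1 : ¬ PG m α γ a b ∣ b := by
    intro h
    have h2 : PG m α γ a b ∣ a ^ (2 * m) := by
      have e : a ^ (2 * m) = PG m α γ a b - C α * (a ^ m * b ^ m) - b ^ (2 * m) * (C γ - X) := by
        unfold PG
        ring
      rw [e]
      refine dvd_sub (dvd_sub dvd_rfl ?_) ?_
      · exact ((dvd_pow h hm.ne').mul_left _).mul_left _
      · exact (dvd_pow h (by omega)).mul_right _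
    exact hP.not_isUnit (hab.isUnit_of_dvd' (hPp.dvd_of_dvd_pow h2) h)
  refine ⟨h1, fun h => ?_⟩
  have h2 : PG m α γ a b ∣ b ^ (2 * m) * (X - C γ) := by
    have e : b ^ (2 * m) * (X - C γ) =
        a ^ (2 * m) + C α * (a ^ m * b ^ m) - PG m α γ a b := by
      unfold PG
      ring
    rw [e]
    refine dvd_sub (dvd_add (dvd_pow h (by omega)) ?_) dvd_rfl
    exact ((dvd_pow h hm.ne').mul_right _).mul_left _
  rcases hPp.dvd_or_dvd h2 with h3 | h3
  · exact h1 (hPp.dvd_of_dvd_pow h3)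
  · have h4 := (hP.associated_of_dvd (irreducible_X_sub_C γ) h3).symm
    obtain ⟨w, hw⟩ := h4.dvd
    apply h0
    rw [hw, eval_mul, eval_sub, eval_X, eval_C, sub_self, zero_mul]

theorem gG_irr (hm : 0 < m) (hξ : IsPrimitiveRoot ξ m) (hab : IsCoprime a b)
    (hP : Irreducible (PG m α γ a b))
    (hl : ∀ l : ℕ, l.Prime → l ∣ m → ∀ v : k,
      (PG m α γ a b).eval γ ≠ v ^ l * (PG m α γ a b).leadingCoeff)
    (h0 : (PG m α γ a b).eval γ ≠ 0) (i : Fin (m + 1)) :
    Irreducible ((gB m α ξ a b i).map (AdjoinRoot.mk (PG m α γ a b))) := by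
  haveI : Fact (Irreducible (PG m α γ a b)) := ⟨hP⟩
  obtain ⟨hPb, hPa⟩ := PG_dvd hab hP hm h0
  refine Fin.lastCases ?_ (fun i => ?_) i
  · rw [gB_last, Polynomial.map_add, Polynomial.map_pow, map_X, map_C]
    set φ := AdjoinRoot.mk (PG m α γ a b) with hφ
    have hξ' : IsPrimitiveRoot (φ (C ξ)) m :=
      hξ.map_of_injective (f := φ.comp C) ((φ.comp C).injective)
    have hφa : φ a ≠ 0 := fun h => hPa (AdjoinRoot.mk_eq_zero.1 h)
    have hφb : φ b ≠ 0 := fun h => hPb (AdjoinRoot.mk_eq_zero.1 h)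
    have e0 : φ (PG m α γ a b) = 0 := AdjoinRoot.mk_self
    have e1 : φ (b ^ (2 * m)) * (φ X - φ (C γ)) = φ (a ^ m) * φ (a ^ m + C α * b ^ m) := by
      have h1 : b ^ (2 * m) * (X - C γ) = a ^ m * (a ^ m + C α * b ^ m) - PG m α γ a b := by
        unfold PG
        ring
      rw [← map_sub, ← map_mul, h1, map_sub, e0, sub_zero, map_mul]
    have e2 : (X ^ m + C (φ (a ^ m + C α * b ^ m)) : (AdjoinRoot (PG m α γ a b))[X]) =
        X ^ m - C (-(φ (a ^ m + C α * b ^ m))) := by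
      rw [C_neg, sub_neg_eq_add]
    rw [e2]
    refine irr_kummer hm hξ' fun l hlp hlm v hv => ?_
    obtain ⟨r, hr⟩ := hlm
    have e3 : algebraMap k (AdjoinRoot (PG m α γ a b)) γ - AdjoinRoot.root (PG m α γ a b) =
        (φ a ^ r * v / φ b ^ (2 * r)) ^ l := by
      rw [div_pow, mul_pow, ← hv, ← pow_mul, ← pow_mul, mul_comm r l, ← hr,
        show 2 * r * l = 2 * m by rw [hr]; ring, eq_div_iff (pow_ne_zero _ hφb)]
      have h2 : AdjoinRoot.root (PG m α γ a b) = φ X := rfl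
      have h3 : algebraMap k (AdjoinRoot (PG m α γ a b)) γ = φ (C γ) := rfl
      rw [h2, h3, ← map_pow, ← map_pow]
      linear_combination (-1) * e1
    have h3 := norm_sub_root hP γ
    rw [e3, map_pow] at h3
    exact hl l hlp ⟨r, hr⟩ _ h3.symm
  · rw [gB_lt, Polynomial.map_sub, map_X, map_C]
    exact irreducible_X_sub_C _

theorem gG_ne (hm : 1 < m) (hξ : IsPrimitiveRoot ξ m) (hab : IsCoprime a b)
    (hP : Irreducible (PG m α γ a b)) (h0 : (PG m α γ a b).eval γ ≠ 0) {i i' : Fin (m + 1)}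
    (hne : i ≠ i') : (gB m α ξ a b i).map (AdjoinRoot.mk (PG m α γ a b)) ≠
      (gB m α ξ a b i').map (AdjoinRoot.mk (PG m α γ a b)) := by
  haveI : Fact (Irreducible (PG m α γ a b)) := ⟨hP⟩
  obtain ⟨hPb, hPa⟩ := PG_dvd hab hP (by omega) h0
  have hdl : ((gB m α ξ a b (Fin.last m)).map (AdjoinRoot.mk (PG m α γ a b))).natDegree = m := by
    rw [(gB_monic (by omega) _).natDegree_map, gB_last, natDegree_X_pow_add_C]
  have hdi : ∀ i : Fin m,
      ((gB m α ξ a b i.castSucc).map (AdjoinRoot.mk (PG m α γ a b))).natDegree = 1 := by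
    intro i
    rw [(gB_monic (by omega) _).natDegree_map, gB_lt, natDegree_X_sub_C]
  intro h
  induction i using Fin.lastCases with
  | last =>
    induction i' using Fin.lastCases with
    | last => exact hne rfl
    | cast i' =>
      have h1 := congrArg natDegree h
      rw [hdl, hdi] at h1
      omega
  | cast i =>
    induction i' using Fin.lastCases with
    | last =>
      have h1 := congrArg natDegree h
      rw [hdl, hdi] at h1
      omega
    | cast i' =>
      rw [gB_lt, gB_lt, Polynomial.map_sub, Polynomial.map_sub, map_X, map_C, map_C] at h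
      have h1 := C_injective (sub_right_injective h)
      have hφa : AdjoinRoot.mk (PG m α γ a b) a ≠ 0 := fun h => hPa (AdjoinRoot.mk_eq_zero.1 h)
      rw [map_mul, map_mul] at h1
      have h2 := mul_right_cancel₀ hφa h1
      have h3 : ξ ^ (i : ℕ) = ξ ^ (i' : ℕ) :=
        ((AdjoinRoot.mk (PG m α γ a b)).comp C).injective h2
      exact hne (congrArg Fin.castSucc (Fin.ext (hξ.pow_inj i.2 i'.2 h3)))

end fam

section ex

open Pool.Agent.X261.TW.Ex (evL addL smulL mulL ev_addL ev_smulL ev_mulL)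
open Pool.Agent.X261.RO.Ce
open Pool.Agent.X261.MS (charP7 not_sq7)

theorem allG0 : chkAll 7 [6, 0, 1, 0, 1] [[0, 1], [0, 6, 0, 2], [0, 6], [0, 1, 0, 5], [0, 1]]
    [[0, 6, 0, 1], [0, 6, 0, 6, 0, 5, 0, 5, 0, 3, 0, 1, 0, 4, 0, 5, 0, 2], [0, 1, 0, 6],
      [0, 1, 0, 1, 0, 2, 0, 2, 0, 4, 0, 6, 0, 3, 0, 2, 0, 5]] 4 = true := by decide +kernel

theorem oneG0 : chkOne 7 [6, 0, 1, 0, 1]
    ([[0, 1], [0, 6, 0, 2], [0, 6], [0, 1, 0, 5], [0, 1]].getD 2 []) [0, 3, 0, 3] [6] = true := by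
  decide +kernel

def HHG : List (List ℤ) := [[0, 1], [5, 5, 6, 6, 4], [1, 6, 2, 0, 1], [3, 5, 6, 5, 1],
  [6, 4, 0, 3, 1], [0, 1]]

def QQG : List (List ℤ) := [[1, 6, 6],
  [2, 0, 6, 4, 1, 5, 5, 5, 0, 3, 6, 2, 5, 5, 4, 6, 2, 0, 3, 2, 5, 4, 3, 3],
  [6, 3, 5, 4, 2, 6, 5, 6, 2, 6, 5, 2, 4, 2, 3, 3, 2, 0, 6, 4, 3, 1, 6, 6],
  [2, 1, 5, 1, 1, 0, 6, 4, 6, 5, 5, 4, 3, 3, 1, 5, 4, 0, 6, 4, 3, 1, 6, 6],
  [3, 4, 6, 5, 3, 3, 5, 6, 6, 0, 5, 6, 2, 4, 6, 0, 6, 0, 6, 4, 3, 1, 6, 6]]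

theorem allG : chkAll 7 [2, 4, 0, 5, 1, 6] HHG QQG 5 = true := by decide +kernel

theorem oneG : chkOne 7 [2, 4, 0, 5, 1, 6] (HHG.getD 1 []) [0, 4, 6, 3, 5] [4, 3, 6, 6] = true := by
  decide +kernel

variable {k : Type} [Field k]

theorem fG_ex : fG 2 (1 : k) (-1) = X ^ 4 + X ^ 2 - 1 := by
  unfold fG
  rw [C_neg, C_1]
  ring

theorem fG_ex_irr [Finite k] {r : ℕ} (h : Nat.card k = 7 ^ r) (hr : Odd r) :
    Irreducible (fG 2 (1 : k) (-1)) := by
  haveI := charP7 h
  refine irr_of (r := 7) h (n := 4) ?_ (fG_deg (by norm_num) _ _) (by norm_num)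
    fun F _ _ _ a ha d hd => ?_
  · exact (hr.coprime_two_right).pow_right 2
  · have h7 : (7 : F) = 0 := by
      have := CharP.cast_eq_zero F 7
      exact_mod_cast this
    have hev : evL [6, 0, 1, 0, 1] a = 0 := by
      rw [fG_ex] at ha
      simp only [map_add, map_sub, map_pow, aeval_X, map_one] at ha
      simp only [evL]
      push_cast
      linear_combination ha + h7
    refine dvd_of_pow (r := 7) (by norm_num) (pow_n allG0 hev) (fun l hl hl4 => ?_) hd
    have hl' : l = 2 := (Nat.prime_dvd_prime_iff_eq hl Nat.prime_two).1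
      (hl.dvd_of_dvd_pow (show l ∣ 2 ^ 2 from hl4))
    subst hl'
    exact pow_ne allG0 hev (by norm_num) oneG0

theorem PG_eq : PG 2 (1 : k) (-1) (X + 2) X = -X ^ 5 + X ^ 4 + 12 * X ^ 3 + 28 * X ^ 2 + 32 * X +
    16 := by
  unfold PG
  rw [C_1, C_neg, C_1]
  ring

theorem PG_deg : (PG 2 (1 : k) (-1) (X + 2) X).natDegree = 5 := by
  rw [PG_eq]
  compute_degree!

theorem PG_lc : (PG 2 (1 : k) (-1) (X + 2) X).leadingCoeff = -1 := by
  rw [leadingCoeff, PG_deg, PG_eq]
  simp [coeff_X, coeff_ofNat_mul]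

theorem PG_zero : (PG 2 (1 : k) (-1) (X + 2) X).eval 0 = 16 := by
  rw [PG_eq]
  simp

theorem PG_gamma : (PG 2 (1 : k) (-1) (X + 2) X).eval (-1) = 2 := by
  rw [PG_eq]
  simp only [eval_add, eval_neg, eval_mul, eval_pow, eval_X, eval_ofNat]
  ring

theorem PG_irr [Finite k] {r : ℕ} (h : Nat.card k = 7 ^ r) (hr : r.Coprime 5) :
    Irreducible (PG 2 (1 : k) (-1) (X + 2) X) := by
  haveI := charP7 h
  refine irr_of (r := 7) h (n := 5) hr PG_deg (by norm_num) fun F _ _ _ a ha d hd => ?_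
  have h7 : (7 : F) = 0 := by
    have := CharP.cast_eq_zero F 7
    exact_mod_cast this
  have hev : evL [2, 4, 0, 5, 1, 6] a = 0 := by
    rw [PG_eq] at ha
    simp only [map_add, map_sub, map_neg, map_mul, map_pow, aeval_X, map_ofNat] at ha
    simp only [evL]
    push_cast
    linear_combination ha + (a ^ 5 - a ^ 3 - 4 * a ^ 2 - 4 * a - 2) * h7
  refine dvd_of_pow (r := 7) (by norm_num) (pow_n allG hev) (fun l hl hl5 => ?_) hd
  have hl' : l = 5 := (Nat.prime_dvd_prime_iff_eq hl (by norm_num)).1 hl5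
  subst hl'
  exact pow_ne allG hev (by norm_num) oneG

/-- `-2` is no cube. -/
theorem not_cube7 [Finite k] {r : ℕ} (h : Nat.card k = 7 ^ r) (hr : r.Coprime 3) (v : k) :
    v ^ 3 ≠ -2 := by
  haveI := charP7 h
  intro hv
  have h7 : (7 : k) = 0 := by
    have := CharP.cast_eq_zero k 7
    exact_mod_cast this
  have h2 : (2 : k) ≠ 0 := by
    intro h0
    have h1 : (1 : k) = 0 := by linear_combination h7 - 3 * h0
    exact one_ne_zero h1
  have hv0 : v ≠ 0 := by
    rintro rfl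
    apply h2
    linear_combination hv
  have key : ∀ i : ℕ, v ^ 7 ^ i = 4 ^ i * v := by
    intro i
    induction i with
    | zero => simp
    | succ i ih =>
      rw [pow_succ 7, pow_mul, ih, mul_pow, ← pow_mul, mul_comm i 7, pow_mul]
      have e1 : (4 : k) ^ 7 = 4 := by linear_combination 2340 * h7
      have e2 : v ^ 7 = 4 * v := by linear_combination (v ^ 4 - 2 * v) * hv
      rw [e1, e2]
      ring
  have h1 := key r
  haveI := Fintype.ofFinite k
  have h3 : v ^ 7 ^ r = v := by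
    rw [← h, Nat.card_eq_fintype_card, FiniteField.pow_card]
  rw [h3] at h1
  have h4 : (4 : k) ^ r = 1 := by
    apply mul_right_cancel₀ hv0
    rw [← h1, one_mul]
  have h5 : (4 : k) ^ 3 = 1 := by linear_combination 9 * h7
  have h6 : orderOf (4 : k) ∣ 1 := by
    rw [← Nat.Coprime.gcd_eq_one hr]
    exact Nat.dvd_gcd (orderOf_dvd_of_pow_eq_one h4) (orderOf_dvd_of_pow_eq_one h5)
  have h8 : (4 : k) = 1 := orderOf_eq_one_iff.1 (Nat.dvd_one.1 h6)
  have h9 : (1 : k) = 0 := by linear_combination h7 - 2 * h8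
  exact one_ne_zero h9

end ex

end Pool.Agent.X261.MB
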