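import Pool.Agent.X261.MB.Slv

/-!
Twists with several multisections with poles at inert primes: all the conclusions.
-/

set_option autoImplicit false
set_option linter.all false

open Polynomial IsDedekindDomain WithZero
open scoped nonZeroDivisors Classical

namespace Pool.Agent.X261.MB

open Pool.Agent.TH115.GD (IsTower Sep)
open Pool.Agent.Y160
open Pool.Agent.Y160.SE (IsPw SmoothC)
open Pool.Agent.Y160.SL (Concl)
open Pool.Agent.Y160.FT (Pres)
open Pool.Agent.Y160.T7
open Pool.Agent.Y228.FT
open Pool.Agent.X261.TS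
open Pool.Agent.X261.RO (ev)
open Pool.Agent.X261.MF (vv solveG orderG norm_aeval scale_eq)
open Pool.Agent.Y160.SQ (Rt)
open Pool.Agent.Y160.RK (ptCl spanD gen_iter mem_spanD rank_lin)

section cont

variable {k K : Type} [Field k] [Field K] [Algebra k[X] K] [IsFractionRing k[X] K]

theorem contB {Goal : Prop} {p q s : ℕ} (hp : p.Prime) (hq : q = p ^ (s + 1)) {f : k[X][X]}
    (hmon : f.Monic) (hcop : p.Coprime f.natDegree)
    (hirrK : Irreducible (f.map (algebraMap k[X] K))) {m : ℕ} {P : k[X]} {g : Fin (m + 1) → k[X][X]}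
    {b : k[X]} (hb : b ≠ 0) (hPb : ¬ P ∣ b)
    (hin : ∀ Q : k[X], Irreducible Q → Q ∣ b → Irreducible (f.map (AdjoinRoot.mk Q)))
    (hPi : Irreducible P) (hg : ∀ i, (g i).Monic) (hf : f.scaleRoots b = C P + ∏ i, g i)
    (hi : ∀ i, Irreducible ((g i).map (AdjoinRoot.mk P)))
    (hne : ∀ i i', i ≠ i' → (g i).map (AdjoinRoot.mk P) ≠ (g i').map (AdjoinRoot.mk P))
    {j : ℕ} (hj : q ∣ f.natDegree * j + 1)
    (hR : ∃ (R : Type) (_ : CommRing R) (_ : IsDedekindDomain R) (_ : Algebra k R) (t x : R),
      Pres t x f ∧ PropT p k R)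
    (cont : ∀ (R N : Type) [CommRing R] [IsDedekindDomain R] [Field N] [Algebra K N]
      [Algebra k[X] N] [IsScalarTower k[X] K N] [Algebra R N] [IsFractionRing R N]
      [Algebra k[X] R] [IsScalarTower k[X] R N] [Algebra.IsIntegral k[X] R] (θ : N),
      aeval θ ((f.scaleRoots (b * P ^ j)).map (algebraMap k[X] K)) = 0 →
      IntermediateField.adjoin K {θ} = ⊤ →
      (∀ z : N, z ≠ 0 → (∀ v : HeightOneSpectrum R, algebraMap k[X] R (b * P ^ j) ∉ v.asIdeal →
        IsPw q (v.valuation N z)) → (∃ y : K, Algebra.norm K z = y ^ q) →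
        ∃ (u : k) (w : N) (e : Fin m → ℕ), u ≠ 0 ∧ w ≠ 0 ∧
          z = algebraMap k[X] N (C u) * w ^ q *
            ∏ i, (aeval θ (vv K P (g i.castSucc) j)) ^ e i) →
      (∀ (e : Fin m → ℕ) (w : N), w ≠ 0 →
        ((∏ i, aeval θ (vv K P (g i.castSucc) j) ^ e i) ^ f.natDegree = w ^ q ∨
        (∏ i, aeval θ (vv K P (g i.castSucc) j) ^ e i) ^ f.natDegree = -w ^ q) →
          ∀ i, q ∣ e i) → Goal) :
    Goal := by
  have hg1 : ∀ i, 0 < (g i).natDegree := by
    intro i
    haveI : Fact (Irreducible P) := ⟨hPi⟩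
    have := (hi i).natDegree_pos
    rwa [(hg i).natDegree_map] at this
  have hdeg : (∑ i : Fin m, (g i.castSucc).natDegree) + (g (Fin.last m)).natDegree =
      f.natDegree := by
    rw [← natDegree_scaleRoots f b, hf, natDegree_C_add,
      natDegree_prod_of_monic _ _ fun i _ => hg i, Fin.sum_univ_castSucc]
  have hn0 : 0 < f.natDegree := by
    have := hg1 (Fin.last m)
    omega
  obtain ⟨R, _, _, _, u, x, hP, hsel⟩ := hR
  have hsurj := hP.surj
  have hker := hP.ker
  have hn : f.natDegree ≠ 0 := hn0.ne'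
  -- the algebra structures
  let φ : k[X] →+* R := ((aeval u : k[X] →ₐ[k] R) : k[X] →+* R)
  letI : Algebra k[X] R := φ.toAlgebra
  haveI : IsDomain R := inferInstance
  have hinjR : Function.Injective (algebraMap k[X] R) := by
    rw [injective_iff_map_eq_zero]
    intro y hy
    have h1 : eval₂ φ x (C y) = 0 := by rw [eval₂_C]; exact hy
    have h2 := (hker _).1 h1
    by_contra hy0
    have h3 := natDegree_le_of_dvd h2 (C_ne_zero.2 hy0)
    rw [natDegree_C] at h3
    omega
  have hkX : ∀ y : k[X], algebraMap k[X] (FractionRing R) y = algebraMap R (FractionRing R) (φ y) :=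
    fun y => IsScalarTower.algebraMap_apply k[X] R (FractionRing R) y
  have hinjN : Function.Injective (algebraMap k[X] (FractionRing R)) := by
    intro y y' h
    rw [hkX, hkX] at h
    exact hinjR (IsFractionRing.injective R (FractionRing R) h)
  letI : Algebra K (FractionRing R) := (IsFractionRing.lift hinjN : K →+* FractionRing R).toAlgebra
  haveI : IsScalarTower k[X] K (FractionRing R) := IsScalarTower.of_algebraMap_eq fun y =>
    (IsFractionRing.lift_algebraMap hinjN y).symm
  have hroot : eval₂ φ x f = 0 := (hker _).2 dvd_rfl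
  haveI : Algebra.IsIntegral k[X] R := by
    refine ⟨fun z => ?_⟩
    obtain ⟨P, rfl⟩ := hsurj z
    have hx : IsIntegral k[X] x := ⟨f, hmon, hroot⟩
    have : eval₂ φ x P = aeval x P := rfl
    rw [this]
    exact adjoin_le_integralClosure hx (aeval_mem_adjoin_singleton k[X] x)
  let θ : FractionRing R := algebraMap R (FractionRing R) x
  have hyev : ∀ (y : R) (P : k[X][X]), aeval (algebraMap R (FractionRing R) y)
      (P.map (algebraMap k[X] K)) = algebraMap R (FractionRing R) (eval₂ φ y P) := by
    intro y P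
    rw [aeval_map_algebraMap]
    have h1 : algebraMap k[X] (FractionRing R) = (algebraMap R (FractionRing R)).comp φ :=
      RingHom.ext hkX
    rw [aeval_def, h1]
    exact (hom_eval₂ P φ (algebraMap R (FractionRing R)) y).symm
  have hθev : ∀ P : k[X][X], aeval θ (P.map (algebraMap k[X] K)) =
      algebraMap R (FractionRing R) (eval₂ φ x P) := hyev x
  have hθ : aeval θ (f.map (algebraMap k[X] K)) = 0 := by
    rw [hθev, hroot, map_zero]
  have htop : IntermediateField.adjoin K {θ} = ⊤ := by
    rw [eq_top_iff]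
    rintro z -
    have hR : ∀ r : R, algebraMap R (FractionRing R) r ∈ IntermediateField.adjoin K {θ} := by
      intro r
      obtain ⟨P, rfl⟩ := hsurj r
      rw [← hθev]
      exact IntermediateField.algebra_adjoin_le_adjoin K {θ}
        (aeval_mem_adjoin_singleton K θ)
    obtain ⟨a, b', hb', rfl⟩ := IsFractionRing.div_surjective (A := R) z
    exact div_mem (hR a) (hR b')
  -- the degree
  have hθint : IsIntegral K θ := ⟨f.map (algebraMap k[X] K), hmon.map _, hθ⟩
  haveI : FiniteDimensional K (FractionRing R) := by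
    have h1 : FiniteDimensional K (IntermediateField.adjoin K {θ}) :=
      IntermediateField.adjoin.finiteDimensional hθint
    rw [htop] at h1
    exact LinearEquiv.finiteDimensional
      (IntermediateField.topEquiv (F := K) (E := FractionRing R)).toLinearEquiv
  have hrank : Module.finrank K (FractionRing R) = f.natDegree := by
    have h1 := IntermediateField.adjoin.finrank hθint
    rw [htop, IntermediateField.finrank_top'] at h1
    rw [h1, ← minpoly.eq_of_irreducible_of_monic hirrK hθ (hmon.map _), hmon.natDegree_map]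
  have hq1 : 1 < q := by
    rw [hq]
    exact Nat.one_lt_pow (Nat.succ_ne_zero s) hp.one_lt
  -- the root of the twisted polynomial
  set D : k[X] := b * P ^ j with hDdef
  have hD : D ≠ 0 := mul_ne_zero hb (pow_ne_zero j hPi.ne_zero)
  have hDK : algebraMap k[X] K D ≠ 0 := fun h0 => hD (IsFractionRing.injective k[X] K
    (by rw [h0, map_zero]))
  have hscale : (f.scaleRoots D).map (algebraMap k[X] K) =
      (f.map (algebraMap k[X] K)).scaleRoots (algebraMap k[X] K D) :=
    map_scaleRoots f D (algebraMap k[X] K) (by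
      rw [hmon.leadingCoeff, map_one]
      exact one_ne_zero)
  have hDN : algebraMap K (FractionRing R) (algebraMap k[X] K D) ≠ 0 :=
    (_root_.map_ne_zero _).2 hDK
  -- the root of `f.scaleRoots b`
  obtain ⟨y, hy⟩ : ∃ y : R, y = aeval u b * x := ⟨_, rfl⟩
  have hyb : algebraMap R (FractionRing R) y =
      algebraMap K (FractionRing R) (algebraMap k[X] K b) * θ := by
    rw [hy, map_mul, ← IsScalarTower.algebraMap_apply, hkX]
    rfl
  have hbK : algebraMap k[X] K b ≠ 0 := fun h0 => hb (IsFractionRing.injective k[X] K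
    (by rw [h0, map_zero]))
  have hbN : algebraMap K (FractionRing R) (algebraMap k[X] K b) ≠ 0 :=
    (_root_.map_ne_zero _).2 hbK
  have hyroot : aeval (algebraMap R (FractionRing R) y)
      ((f.scaleRoots b).map (algebraMap k[X] K)) = 0 := by
    have h1 := ev_f (b := b) hP
    unfold ev at h1
    rw [hyev, hy]
    exact (congrArg _ h1).trans (map_zero _)
  have hytop : IntermediateField.adjoin K {algebraMap R (FractionRing R) y} = ⊤ := by
    rw [eq_top_iff, ← htop, IntermediateField.adjoin_simple_le_iff]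
    have h1 := IntermediateField.mem_adjoin_simple_self K (algebraMap R (FractionRing R) y)
    have h2 := mul_mem (inv_mem (IntermediateField.algebraMap_mem
      (IntermediateField.adjoin K {algebraMap R (FractionRing R) y}) (algebraMap k[X] K b))) h1
    rw [hyb] at h2 ⊢
    rwa [inv_mul_cancel_left₀ hbN] at h2
  have hmonb : (f.scaleRoots b).Monic := (monic_scaleRoots_iff b).2 hmon
  have hirrb : Irreducible ((f.scaleRoots b).map (algebraMap k[X] K)) := by
    rw [map_scaleRoots f b (algebraMap k[X] K) (by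
      rw [hmon.leadingCoeff, map_one]
      exact one_ne_zero)]
    exact irr_scale hbK hirrK
  have hval : ∀ i, aeval (algebraMap K (FractionRing R) (algebraMap k[X] K D) * θ)
      (vv K P (g i) j) = algebraMap k[X] (FractionRing R) (P ^ j) ^ (g i).natDegree *
        algebraMap R (FractionRing R) (ev u (aeval u b * x) (g i)) := by
    intro i
    have e1 : algebraMap K (FractionRing R) (algebraMap k[X] K D) * θ =
        algebraMap k[X] (FractionRing R) (P ^ j) * algebraMap R (FractionRing R) y := by
      rw [hyb, hDdef, map_mul, map_mul, IsScalarTower.algebraMap_apply k[X] K (FractionRing R)]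
      ring
    unfold vv
    rw [e1, aeval_map_algebraMap, aeval_def, scaleRoots_eval₂_mul]
    congr 1
    rw [← aeval_def, ← aeval_map_algebraMap K, hyev, hy]
  have hbP : IsCoprime b P := (hPi.coprime_iff_not_dvd.2 hPb).symm
  have hA : ∀ i, Prime (ev u (aeval u b * x) (g i)) := fun i =>
    prime_G hbP hP hmon hb hf hn0 hPi i (hi i)
  have hAA : ∀ i i', i ≠ i' → ¬ ev u (aeval u b * x) (g i) ∣ ev u (aeval u b * x) (g i') :=
    fun i i' h => ndvd_G hbP hP hmon hb hf hPi hg hi (hne i i' h)
  have hPR : algebraMap k[X] R P = -((∏ i : Fin m, ev u (aeval u b * x) (g i.castSucc)) *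
      ev u (aeval u b * x) (g (Fin.last m))) := by
    rw [← Fin.prod_univ_castSucc (fun i => ev u (aeval u b * x) (g i))]
    exact ev_P hP hf
  have hNA : ∀ i, Algebra.norm K (algebraMap R (FractionRing R) (ev u (aeval u b * x) (g i))) =
      ((-1) ^ f.natDegree * algebraMap k[X] K P) ^ (g i).natDegree := by
    intro i
    have h1 := norm_aeval (hmonb.map (algebraMap k[X] K)) hirrb hyroot hytop
      ((hg i).map (algebraMap k[X] K)) (c := algebraMap k[X] K P) (by
        rw [hf, Polynomial.map_add, map_C, add_sub_cancel_left, Polynomial.map_prod]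
        exact Finset.dvd_prod_of_mem _ (Finset.mem_univ i))
    rw [hyev, hmonb.natDegree_map, natDegree_scaleRoots, (hg i).natDegree_map, hy] at h1
    exact h1
  have hcopq : f.natDegree.Coprime q := by
    rw [hq]
    exact (Nat.Coprime.pow_left (s + 1) hcop).symm
  have hj0 : j ≠ 0 := by
    rintro rfl
    rw [mul_zero, zero_add, Nat.dvd_one] at hj
    omega
  have hsel' : ∀ z : FractionRing R, z ≠ 0 →
      (∀ v : HeightOneSpectrum R, IsPw q (v.valuation (FractionRing R) z)) →
      ∃ (c : k) (w : FractionRing R), c ≠ 0 ∧ w ≠ 0 ∧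
        z = algebraMap k[X] (FractionRing R) (C c) * w ^ q := by
    intro z hz hv
    obtain ⟨c, w, hc, hw, e⟩ := propT_pow hp.ne_zero hsel (FractionRing R) (s + 1) z hz
      (by rw [← hq]; exact hv)
    refine ⟨c, w, hc, hw, ?_⟩
    rw [e, hkX, hq]
    congr 2
    show _ = aeval u (C c)
    rw [aeval_C]
  refine cont R (FractionRing R) (algebraMap K (FractionRing R) (algebraMap k[X] K D) * θ) ?_ ?_ ?_
    ?_
  · rw [hscale]
    exact scaleRoots_aeval_eq_zero hθ
  · rw [eq_top_iff, ← htop, IntermediateField.adjoin_simple_le_iff]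
    have h1 := IntermediateField.mem_adjoin_simple_self K
      (algebraMap K (FractionRing R) (algebraMap k[X] K D) * θ)
    have h2 := mul_mem (inv_mem (IntermediateField.algebraMap_mem
      (IntermediateField.adjoin K {algebraMap K (FractionRing R) (algebraMap k[X] K D) * θ})
      (algebraMap k[X] K D))) h1
    rwa [inv_mul_cancel_left₀ hDN] at h2
  · intro z hz hv hnm
    simp only [hval]
    refine solveG (R := R) (K := K) hq1 hrank hPi (fun i => hA _) (hA _)
      (fun i => hAA _ _ (Fin.castSucc_ne_last i).symm)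
      (fun i i' h => hAA _ _ (fun e => h (Fin.castSucc_injective m e))) hPR hdeg
      (fun i => hNA _) (hNA _) hj hsel' hz (fun v hvj => ?_) hnm
    refine reduceB (R := R) (K := K) hq1 hrank hcopq hPi hb hPb (fun Q hQ hQb => ?_)
      (fun i => hA _) (hA _) (fun i => hAA _ _ (Fin.castSucc_ne_last i).symm)
      (fun i i' h => hAA _ _ (fun e => h (Fin.castSucc_injective m e))) hPR
      (fun i => hNA _) (hNA _) hsel' hz (fun v' hv' => ?_) hnm v (fun hvP => ?_)
    · exact prime_of_pres hP hn0 hQ (hin Q hQ hQb)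
    · refine hv v' fun h1 => hv' ?_
      rw [map_mul] at h1 ⊢
      rcases v'.isPrime.mem_or_mem h1 with h2 | h2
      · exact Ideal.mul_mem_right _ _ h2
      · rw [map_pow] at h2
        exact Ideal.mul_mem_left _ _ (v'.isPrime.mem_of_pow_mem j h2)
    · refine hvj ?_
      rw [map_pow]
      exact Ideal.pow_mem_of_mem _ hvP j (Nat.pos_of_ne_zero hj0)
  · intro e w hw h
    simp only [hval] at h
    exact orderG (R := R) (n := f.natDegree) hcopq (fun i => hA _) (hA _)
      (fun i => hAA _ _ (Fin.castSucc_ne_last i).symm)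
      (fun i i' h => hAA _ _ (fun e => h (Fin.castSucc_injective m e))) hPR hw h

end cont

section concl

variable {k k' K F : Type} [Field k] [Field k'] [Algebra k k'] [Field K] [Algebra k[X] K]
  [Field F] [Algebra k'[X] F] [IsFractionRing k'[X] F] [Algebra K F] [IsFractionRing k[X] K]

/-- All the conclusions. -/
theorem conclB (hT : IsTower k k' K F) {p q s : ℕ} (hp : p.Prime) (hq : q = p ^ (s + 1)) {ζ : k}
    (hζ : IsPrimitiveRoot ζ q) {f : k[X][X]} (hmon : f.Monic) (hcop : p.Coprime f.natDegree)
    {m : ℕ} {P : k[X]} {g : Fin (m + 1) → k[X][X]}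
    {b : k[X]} (hb : b ≠ 0) (hPb : ¬ P ∣ b)
    (hin : ∀ Q : k[X], Irreducible Q → Q ∣ b → Irreducible (f.map (AdjoinRoot.mk Q)))
    (hPi : Irreducible P) (hg : ∀ i, (g i).Monic) (hf : f.scaleRoots b = C P + ∏ i, g i)
    (hi : ∀ i, Irreducible ((g i).map (AdjoinRoot.mk P)))
    (hne : ∀ i i', i ≠ i' → (g i).map (AdjoinRoot.mk P) ≠ (g i').map (AdjoinRoot.mk P))
    {j : ℕ} (hj : q ∣ f.natDegree * j + 1)
    (hR : ∃ (R : Type) (_ : CommRing R) (_ : IsDedekindDomain R) (_ : Algebra k R) (t x : R),
      Pres t x f ∧ PropT p k R)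
    (hsep : (f.map (algebraMap k[X] K)).Separable) (hsm : SmoothC f)
    (hirr : Irreducible ((f.map (algebraMap k[X] K)).map (algebraMap K F))) :
    Concl p q m k k' F ((f.scaleRoots (b * P ^ j)).map (algebraMap k[X] K)) := by
  have hirrK : Irreducible (f.map (algebraMap k[X] K)) :=
    Polynomial.Monic.irreducible_of_irreducible_map (algebraMap K F) _ (hmon.map _) hirr
  obtain ⟨D, hDdef⟩ : ∃ D : k[X], D = b * P ^ j := ⟨_, rfl⟩
  have hPj : P ^ j ≠ 0 := pow_ne_zero j hPi.ne_zero
  have hD : D ≠ 0 := by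
    rw [hDdef]
    exact mul_ne_zero hb hPj
  have hPjK : algebraMap k[X] K (P ^ j) ≠ 0 := fun h0 => hPj (IsFractionRing.injective k[X] K
    (by rw [h0, map_zero]))
  have hDK : algebraMap k[X] K D ≠ 0 := fun h0 => hD (IsFractionRing.injective k[X] K
    (by rw [h0, map_zero]))
  have hscale : (f.scaleRoots D).map (algebraMap k[X] K) =
      (f.map (algebraMap k[X] K)).scaleRoots (algebraMap k[X] K D) :=
    map_scaleRoots f D (algebraMap k[X] K) (by
      rw [hmon.leadingCoeff, map_one]
      exact one_ne_zero)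
  have hscale2 : ((f.scaleRoots D).map (algebraMap k[X] K)).map (algebraMap K F) =
      ((f.map (algebraMap k[X] K)).map (algebraMap K F)).scaleRoots
        (algebraMap K F (algebraMap k[X] K D)) := by
    rw [hscale]
    refine map_scaleRoots _ _ (algebraMap K F) ?_
    rw [(hmon.map _).leadingCoeff, map_one]
    exact one_ne_zero
  have hmonS : (f.scaleRoots D).Monic := (monic_scaleRoots_iff D).2 hmon
  have hcopS : p.Coprime (f.scaleRoots D).natDegree := by rwa [natDegree_scaleRoots]
  have hsepS : ((f.scaleRoots D).map (algebraMap k[X] K)).Separable := by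
    rw [hscale]
    exact sep_scale hDK hsep
  have hirrKS : Irreducible ((f.scaleRoots D).map (algebraMap k[X] K)) := by
    rw [hscale]
    exact irr_scale hDK hirrK
  have hirrS : Irreducible (((f.scaleRoots D).map (algebraMap k[X] K)).map (algebraMap K F)) := by
    rw [hscale2]
    exact irr_scale ((_root_.map_ne_zero _).2 hDK) hirr
  obtain ⟨md, hsmS⟩ := smooth_scale hsm hD
  have hgd := (SH.good_of hp (Nat.succ_pos s) hq hT hζ hmonS hcopS hsepS).1
  -- the divisors
  obtain ⟨m0, hm0⟩ := hj
  have hj' : q ∣ f.natDegree * j + 1 := ⟨m0, hm0⟩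
  obtain ⟨V, hV⟩ : ∃ V : Fin m → K[X], V = fun i => vv K P (g i.castSucc) j := ⟨_, rfl⟩
  obtain ⟨TK, hTK⟩ : ∃ TK : K[X], TK = C (algebraMap k[X] K (P ^ m0)) := ⟨_, rfl⟩
  have hTq : TK ^ q = C (algebraMap k[X] K (P * (P ^ j) ^ (f.scaleRoots b).natDegree)) := by
    rw [hTK, ← C_pow, ← map_pow]
    congr 2
    rw [natDegree_scaleRoots, ← pow_mul, ← pow_mul, ← pow_succ']
    congr 1
    rw [mul_comm m0 q, ← hm0, mul_comm j]
  have hFT : (f.scaleRoots D).map (algebraMap k[X] K) - TK ^ q =
      ((∏ i, g i).scaleRoots (P ^ j)).map (algebraMap k[X] K) := by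
    rw [hTq, hDdef, scaleRoots_mul, scale_eq hf, Polynomial.map_add, map_C, add_sub_cancel_left]
  have hVd : ∀ i, V i ∣ (f.scaleRoots D).map (algebraMap k[X] K) - TK ^ q := by
    intro i
    rw [hFT, hV]
    show (((g i.castSucc).scaleRoots (P ^ j)).map (algebraMap k[X] K)) ∣ _
    obtain ⟨r, hr⟩ := Finset.dvd_prod_of_mem g (Finset.mem_univ i.castSucc)
    rw [hr, mul_scaleRoots_of_noZeroDivisors, Polynomial.map_mul]
    exact dvd_mul_right _ _
  have hPp : ∀ i, Irreducible (V i) ∧ (V i).Monic ∧
      ¬ V i ∣ (f.scaleRoots D).map (algebraMap k[X] K) ∧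
      V i ∣ (f.scaleRoots D).map (algebraMap k[X] K) - TK ^ q := by
    intro i
    have h1 : (V i).Monic := by
      rw [hV]
      exact ((monic_scaleRoots_iff _).2 (hg _)).map _
    have h2 : Irreducible (V i) := by
      haveI : Fact (Irreducible P) := ⟨hPi⟩
      have h3 : Irreducible (g i.castSucc) :=
        Polynomial.Monic.irreducible_of_irreducible_map (AdjoinRoot.mk P) _ (hg _) (hi _)
      have h4 := ((hg i.castSucc).irreducible_iff_irreducible_map_fraction_map (K := K)).1 h3
      rw [hV]
      show Irreducible (((g i.castSucc).scaleRoots (P ^ j)).map (algebraMap k[X] K))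
      rw [map_scaleRoots _ _ (algebraMap k[X] K) (by
        rw [(hg _).leadingCoeff, map_one]
        exact one_ne_zero)]
      exact irr_scale hPjK h4
    refine ⟨h2, h1, fun h5 => ?_, hVd i⟩
    have h6 : V i ∣ TK ^ q := by
      have := dvd_sub h5 (hVd i)
      rwa [sub_sub_cancel] at this
    rw [hTq] at h6
    refine h2.not_isUnit (isUnit_of_dvd_unit h6 (isUnit_C.2 (IsUnit.mk0 _ fun h0 => ?_)))
    exact mul_ne_zero hPi.ne_zero (pow_ne_zero _ hPj)
      (IsFractionRing.injective k[X] K (by rw [h0, map_zero]))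
  rw [← hDdef]
  refine ⟨SL.tateAt_of ?_, SL.shaTriv_of ?_, ?_⟩
  · refine contB (K := K) hp hq hmon hcop hirrK hb hPb hin hPi hg hf hi hne hj' hR ?_
    rw [← hDdef]
    intro R N _ _ _ _ _ _ _ _ _ _ _ θ hθ htop hpts hord
    refine mainCS (R := R) (N := N) hp (Nat.succ_pos s) hq SQ.hyps SQ.lhyps hT hζ hmonS hcopS
      hsepS hsmS hirrS hθ htop ?_
    intro z hz hv hn
    obtain ⟨u, w, e, hu, hw, he⟩ := hpts z hz hv hn
    refine ⟨u, w, ∑ i, Multiset.replicate (e i) (V i), hu, hw, fun b hb => ?_, ?_⟩
    · obtain ⟨i, -, hi⟩ := Multiset.mem_sum.1 hb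
      rw [Multiset.eq_of_mem_replicate hi]
      exact ⟨(hPp i).2.1, TK, (hPp i).2.2.2⟩
    · rw [he, Multiset.prod_sum]
      simp only [Multiset.prod_replicate, map_prod, map_pow, hV]
  · refine contB (K := K) hp hq hmon hcop hirrK hb hPb hin hPi hg hf hi hne hj' hR ?_
    rw [← hDdef]
    intro R N _ _ _ _ _ _ _ _ _ _ _ θ hθ htop hpts hord
    refine mainShaS (R := R) (N := N) hp (Nat.succ_pos s) hq SQ.hyps SQ.lhyps
      Pool.Agent.Y141.SH.stShaLoc hT hζ hmonS hcopS hsepS hsmS hirrKS hθ htop ?_
    intro z hz hv hn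
    obtain ⟨u, w, e, hu, hw, he⟩ := hpts z hz hv hn
    refine ⟨u, w, ∑ i, Multiset.replicate (e i) (V i), hu, hw, fun b hb => ?_, ?_⟩
    · obtain ⟨i, -, hi⟩ := Multiset.mem_sum.1 hb
      rw [Multiset.eq_of_mem_replicate hi]
      exact ⟨(hPp i).2.1, TK, (hPp i).2.2.2⟩
    · rw [he, Multiset.prod_sum]
      simp only [Multiset.prod_replicate, map_prod, map_pow, hV]
  · obtain ⟨DD, hDD⟩ : ∃ DD : Fin m → SQ.Jac q ((f.scaleRoots D).map (algebraMap k[X] K)) K,
        DD = fun i => ptCl q ((f.scaleRoots D).map (algebraMap k[X] K)) (V i, TK) := ⟨_, rfl⟩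
    have hgen : ∀ y : SQ.Jac q ((f.scaleRoots D).map (algebraMap k[X] K)) K,
        ∃ y' : SQ.Jac q ((f.scaleRoots D).map (algebraMap k[X] K)) K,
          y - SQ.pe hgd K (1 - X) y' ∈ spanD hgd DD := by
      intro y
      refine contB (K := K) hp hq hmon hcop hirrK hb hPb hin hPi hg hf hi hne hj' hR ?_
      rw [← hDdef]
      intro R N _ _ _ _ _ _ _ _ _ _ _ θ hθ htop hpts hord
      obtain ⟨S', y', hSP, hx⟩ := mainGenS (R := R) (N := N) hp (Nat.succ_pos s) hq SQ.hyps
        SQ.lhyps FT.inj_all Pool.Agent.Y141.SH.stShaLoc hT hζ hgd hmonS hcopS hsepS hsmS hirrKS hθ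
        htop (Set.range fun i => (V i, TK)) (by
          rintro _ ⟨i, rfl⟩
          exact hPp i) (by
          intro z hz hv hn
          obtain ⟨u, w, e, hu, hw, he⟩ := hpts z hz hv hn
          refine ⟨u, w, ∑ i, Multiset.replicate (e i) (V i, TK), hu, hw, fun b hb => ?_, ?_⟩
          · obtain ⟨i, -, hi⟩ := Multiset.mem_sum.1 hb
            rw [Multiset.eq_of_mem_replicate hi]
            exact ⟨i, rfl⟩
          · rw [he, SQ.dvP_eval]
            congr 1
            have h1 : Multiset.map (fun P : K[X] × K[X] => aeval θ P.1)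
                (∑ i, Multiset.replicate (e i) (V i, TK)) =
                ∑ i, Multiset.replicate (e i) (aeval θ (V i)) := by
              rw [← Multiset.coe_mapAddMonoidHom, map_sum]
              refine Finset.sum_congr rfl fun i _ => ?_
              rw [Multiset.coe_mapAddMonoidHom, Multiset.map_replicate]
            rw [h1, Multiset.prod_sum]
            simp only [Multiset.prod_replicate, hV]) y
      refine ⟨y', ?_⟩
      rw [hx, add_sub_cancel_right]
      refine AddSubgroup.multiset_sum_mem _ _ fun c' hc' => ?_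
      obtain ⟨P', hP', rfl⟩ := Multiset.mem_map.1 hc'
      obtain ⟨i, hi⟩ := hSP P' hP'
      rw [← hi]
      have h1 := mem_spanD hgd DD i
      rw [hDD] at h1 ⊢
      exact h1
    have hrank : LinearIndependent ℤ (fun i : Fin m × Fin (q - 1) => ((SQ.sg hgd K) ^ (i.2 : ℕ))
        (DD i.1)) := by
      refine contB (K := K) hp hq hmon hcop hirrK hb hPb hin hPi hg hf hi hne hj' hR ?_
      rw [← hDdef]
      intro R N _ _ _ _ _ _ _ _ _ _ _ θ hθ htop hpts hord
      -- the embedding
      have hs : IsSeparable K θ := hsepS.of_dvd (minpoly.dvd K θ hθ)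
      have f3 : Algebra.IsSeparable K (IntermediateField.adjoin K {θ}) :=
        (IntermediateField.isSeparable_adjoin_simple_iff_isSeparable K N).2 hs
      rw [htop] at f3
      haveI : Algebra.IsSeparable K N :=
        Algebra.IsSeparable.of_algHom K (⊤ : IntermediateField K N)
          (IntermediateField.topEquiv (F := K) (E := N)).symm.toAlgHom
      let i : N →ₐ[K] Sep K := IsSepClosed.lift
      letI : Algebra N (Sep K) := i.toRingHom.toAlgebra
      haveI : IsScalarTower K N (Sep K) :=
        IsScalarTower.of_algebraMap_eq fun x => (i.commutes x).symm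
      have ha : Rt ((f.scaleRoots D).map (algebraMap k[X] K)) (algebraMap N (Sep K) θ) := by
        show aeval _ ((f.scaleRoots D).map (algebraMap k[X] K)) = 0
        rw [aeval_algebraMap_apply, hθ, map_zero]
      have hnat : ((f.scaleRoots D).map (algebraMap k[X] K)).natDegree = f.natDegree := by
        rw [hmonS.natDegree_map, natDegree_scaleRoots]
      have h1 := rank_lin (Ω := Sep K) (N := N) SQ.hyps hgd FT.inj_all Pool.Agent.Y627.FT.stLin hp hq
        hirrKS ha rfl (fun i : Fin m => (V i, TK)) (fun i => hPp i) (by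
          intro e w hw0 hw
          rw [hnat, hV] at hw
          exact hord e w hw0 hw)
      rw [hDD]
      exact h1
    exact ⟨_, hrank, fun n y => gen_iter SQ.hyps hgd hp hq _ hgen n y⟩

end concl

end Pool.Agent.X261.MB

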