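import Pool.Agent.X261.MB.Main
import Pool.Agent.X261.MF.Kum

/-!
Kummer layers: the pull-backs along `s = t ^ (p ^ e)`.
-/

set_option autoImplicit false
set_option linter.all false

open Polynomial IsDedekindDomain WithZero
open scoped nonZeroDivisors Classical

namespace Pool.Agent.X261.MB

open Pool.Agent.TH115.GD (IsTower)
open Pool.Agent.Y160
open Pool.Agent.Y160.SE (SmoothC)
open Pool.Agent.Y160.SL (Concl)
open Pool.Agent.Y160.FT (Pres)
open Pool.Agent.Y160.T7
open Pool.Agent.Y228.FT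
open Pool.Agent.X261.TS
open Pool.Agent.X261.RO (finrank_pow)
open Pool.Agent.X261.MF (irr_pp)

section expand

variable {k : Type} [Field k]

theorem expand_irr' {p : ℕ} (hp : p.Prime) (h4 : p = 2 → IsSquare (-1 : k)) {P : k[X]}
    (hP : Irreducible P) (hc : ∀ v : k, P.eval 0 ≠ v ^ p * P.leadingCoeff) (e : ℕ) :
    Irreducible (expand k (p ^ e) P) := by
  have hl : P.leadingCoeff ≠ 0 := leadingCoeff_ne_zero.2 hP.ne_zero
  obtain ⟨Q, hQ⟩ : ∃ Q : k[X], Q = P * C P.leadingCoeff⁻¹ := ⟨_, rfl⟩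
  have hQm : Q.Monic := by
    rw [hQ]
    exact monic_mul_leadingCoeff_inv hP.ne_zero
  have hu : IsUnit (C P.leadingCoeff⁻¹ : k[X]) := isUnit_C.2 (IsUnit.mk0 _ (inv_ne_zero hl))
  have hQi : Irreducible Q := by
    rw [hQ, irreducible_mul_isUnit hu]
    exact hP
  have hQ0 : ∀ v : k, Q.eval 0 ≠ v ^ p := by
    intro v hv
    refine hc v ?_
    rw [hQ, eval_mul, eval_C] at hv
    rw [← hv, mul_assoc, inv_mul_cancel₀ hl, mul_one]
  have key : Irreducible (expand k (p ^ e) Q) := by
    rw [expand_eq_comp_X_pow]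
    refine Polynomial.irreducible_comp hQm (monic_X_pow _) hQi fun E _ _ x hx => ?_
    have hint : IsIntegral k x := by
      by_contra h
      rw [minpoly.eq_zero h] at hx
      exact hQm.ne_zero hx.symm
    rw [Polynomial.map_pow, map_X]
    have h5 := Algebra.PowerBasis.norm_gen_eq_coeff_zero_minpoly
      (IntermediateField.adjoin.powerBasis hint)
    have h6 : (IntermediateField.adjoin.powerBasis hint).gen =
        IntermediateField.AdjoinSimple.gen k x := IntermediateField.adjoin.powerBasis_gen hint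
    rw [h6, IntermediateField.minpoly_gen, hx, coeff_zero_eq_eval_zero] at h5
    set d := (IntermediateField.adjoin.powerBasis hint).dim with hd
    refine irr_pp hp (fun h2 => ?_) (fun v hv => ?_) e
    · obtain ⟨i, hi⟩ := h4 h2
      exact ⟨algebraMap k _ i, by rw [← map_mul, ← hi, map_neg, map_one]⟩
    · rw [hv, map_pow] at h5
      have h7 : ((-1 : k)) ^ d * (-1) ^ d = 1 := by
        rw [← mul_pow, neg_one_mul, neg_neg, one_pow]
      have h8 : Q.eval 0 = (-1) ^ d * Algebra.norm k v ^ p := by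
        rw [h5, ← mul_assoc, h7, one_mul]
      rcases hp.eq_two_or_odd' with h2 | ho
      · obtain ⟨i, hi⟩ := h4 h2
        refine hQ0 (i ^ d * Algebra.norm k v) ?_
        rw [h8, mul_pow, h2, ← pow_mul, mul_comm d 2, pow_mul, sq i, ← hi]
      · refine hQ0 ((-1) ^ d * Algebra.norm k v) ?_
        rw [h8, mul_pow, ← pow_mul, mul_comm d p, pow_mul, ho.neg_one_pow]
  have e1 : expand k (p ^ e) Q = expand k (p ^ e) P * C P.leadingCoeff⁻¹ := by
    rw [hQ, map_mul, expand_C]
  rw [e1, irreducible_mul_isUnit hu] at key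
  exact key

end expand

section layers

variable {k : Type} [Field k]

theorem graph_expand (f0 : k[X]) (N : ℕ) :
    (graph f0).map (expand k N : k[X] →+* k[X]) = kgraph f0 N := by
  unfold graph kgraph
  rw [Polynomial.map_sub, map_C, Polynomial.map_map]
  congr 1
  · congr 1
    apply RingHom.ext
    intro y
    show expand k N (C y) = C y
    rw [expand_C]
  · congr 1
    show expand k N X = X ^ N
    rw [expand_X]

theorem graph_monic' {f0 : k[X]} (hm : f0.Monic) (hn : 0 < f0.natDegree) : (graph f0).Monic :=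
  monic_graph hm hn

theorem map_pow_irr {P : k[X]} (hPi : Irreducible P) {p e : ℕ}
    (hPN : Irreducible (expand k (p ^ e) P)) {g : k[X][X]} (hg : g.Monic)
    (hgd : p.Coprime g.natDegree) (hi : Irreducible (g.map (AdjoinRoot.mk P))) :
    Irreducible ((g.map (expand k (p ^ e) : k[X] →+* k[X])).map
      (AdjoinRoot.mk (expand k (p ^ e) P))) := by
  haveI : Fact (Irreducible P) := ⟨hPi⟩
  haveI : Fact (Irreducible (expand k (p ^ e) P)) := ⟨hPN⟩
  obtain ⟨hfin1, hfin2⟩ := finrank_pow hPi hPN dvd_rfl (by rw [natDegree_expand])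
  letI : Algebra (AdjoinRoot P) (AdjoinRoot (expand k (p ^ e) P)) :=
    (powMap (dvd_refl (expand k (p ^ e) P))).toAlgebra
  haveI : Module.Finite (AdjoinRoot P) (AdjoinRoot (expand k (p ^ e) P)) := hfin1
  have hmk := powMap_mk (dvd_refl (expand k (p ^ e) P))
  have hmap : (g.map (expand k (p ^ e) : k[X] →+* k[X])).map
      (AdjoinRoot.mk (expand k (p ^ e) P)) = (g.map (AdjoinRoot.mk P)).map
        (powMap (dvd_refl (expand k (p ^ e) P))) := by
    rw [Polynomial.map_map, Polynomial.map_map, hmk]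
  rw [hmap]
  refine Pool.Agent.X261.AA.irr_of_coprime hi ?_
  rw [hfin2, hg.natDegree_map]
  exact hgd.pow_left e

theorem map_pow_ne {P : k[X]} (hPi : Irreducible P) {p e : ℕ}
    (hPN : Irreducible (expand k (p ^ e) P)) {g g' : k[X][X]}
    (hne : g.map (AdjoinRoot.mk P) ≠ g'.map (AdjoinRoot.mk P)) :
    (g.map (expand k (p ^ e) : k[X] →+* k[X])).map (AdjoinRoot.mk (expand k (p ^ e) P)) ≠
      (g'.map (expand k (p ^ e) : k[X] →+* k[X])).map (AdjoinRoot.mk (expand k (p ^ e) P)) := by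
  haveI : Fact (Irreducible P) := ⟨hPi⟩
  haveI : Fact (Irreducible (expand k (p ^ e) P)) := ⟨hPN⟩
  have hmk := powMap_mk (dvd_refl (expand k (p ^ e) P))
  intro h
  rw [Polynomial.map_map, Polynomial.map_map, ← hmk, ← Polynomial.map_map,
    ← Polynomial.map_map] at h
  exact hne (Polynomial.map_injective _ (powMap (dvd_refl (expand k (p ^ e) P))).injective h)

theorem map_eqB {f0 P b : k[X]} (hm : f0.Monic) (hn0 : 0 < f0.natDegree) {m : ℕ}
    {g : Fin (m + 1) → k[X][X]} (hf : (graph f0).scaleRoots b = C P + ∏ i, g i) (N : ℕ) :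
    (kgraph f0 N).scaleRoots (expand k N b) =
      C (expand k N P) + ∏ i, (g i).map (expand k N : k[X] →+* k[X]) := by
  have h1 := congrArg (Polynomial.map (expand k N : k[X] →+* k[X])) hf
  rw [map_scaleRoots _ _ _ (by
    rw [(monic_graph hm hn0).leadingCoeff, map_one]
    exact one_ne_zero), graph_expand, Polynomial.map_add, map_C, Polynomial.map_prod] at h1
  exact h1

variable {k' K F : Type} [Field k'] [Algebra k k'] [Field K] [Algebra k[X] K]
  [Field F] [Algebra k'[X] F] [IsFractionRing k'[X] F] [Algebra K F] [IsFractionRing k[X] K]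

/-- All the layers. -/
theorem layB (hT : IsTower k k' K F) {p s : ℕ} (hp : p.Prime) {ζ : k}
    (hζ : IsPrimitiveRoot ζ (p ^ (s + 1))) (h4 : p = 2 → IsSquare (-1 : k)) {f0 : k[X]}
    (hm : f0.Monic) (hirr : Irreducible f0) (hsep : f0.Separable) (hcop : p.Coprime f0.natDegree)
    {m : ℕ} {P b : k[X]} {g : Fin (m + 1) → k[X][X]} (hb : b ≠ 0) (hPb : ¬ P ∣ b)
    (hin : ∀ Q : k[X], Irreducible Q → Q ∣ b → Irreducible (Q.comp f0))
    (hPi : Irreducible P) (hP0 : ∀ v : k, P.eval 0 ≠ v ^ p * P.leadingCoeff)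
    (hg : ∀ i, (g i).Monic) (hgd : ∀ i, p.Coprime (g i).natDegree)
    (hf : (graph f0).scaleRoots b = C P + ∏ i, g i)
    (hi : ∀ i, Irreducible ((g i).map (AdjoinRoot.mk P)))
    (hne : ∀ i i', i ≠ i' → (g i).map (AdjoinRoot.mk P) ≠ (g i').map (AdjoinRoot.mk P))
    {j : ℕ} (hj : p ^ (s + 1) ∣ f0.natDegree * j + 1) (e : ℕ) :
    Concl p (p ^ (s + 1)) m k k' F (((kgraph f0 (p ^ e)).scaleRoots
      (expand k (p ^ e) b * (expand k (p ^ e) P) ^ j)).map (algebraMap k[X] K)) := by
  have hζ' : IsPrimitiveRoot (ζ ^ (p ^ s)) p :=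
    hζ.pow (pow_pos hp.pos _) (by rw [pow_succ])
  have hn0 : 0 < f0.natDegree := hirr.natDegree_pos
  have ht := tower_kgraph hp hirr hsep hcop e
  have hmK := monic_kgraph hm hn0 (p ^ e)
  have hirrF := irrF hT hp ht hmK
  have hirrK : Irreducible ((kgraph f0 (p ^ e)).map (algebraMap k[X] K)) :=
    Polynomial.Monic.irreducible_of_irreducible_map (algebraMap K F) _ (hmK.map _) hirrF
  have hsepK : ((kgraph f0 (p ^ e)).map (algebraMap k[X] K)).Separable := by
    rw [separable_iff_derivative_ne_zero hirrK, derivative_map]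
    unfold kgraph
    rw [derivative_sub, derivative_C, sub_zero, derivative_map, Polynomial.map_map]
    rw [Polynomial.map_ne_zero_iff]
    · intro h0
      rw [Polynomial.separable_def, h0, isCoprime_zero_right] at hsep
      exact hirr.not_isUnit hsep
    · exact (IsFractionRing.injective k[X] K).comp C_injective
  have hPN := expand_irr' hp h4 hPi hP0 e
  have hb' : expand k (p ^ e) b ≠ 0 := (expand_ne_zero (pow_pos hp.pos e)).2 hb
  have hPb' : ¬ expand k (p ^ e) P ∣ expand k (p ^ e) b := by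
    intro h
    obtain ⟨u, v, huv⟩ := (hPi.coprime_iff_not_dvd.2 hPb)
    have h2 := congrArg (expand k (p ^ e)) huv
    rw [map_add, map_mul, map_mul, map_one] at h2
    refine hPN.not_isUnit (isUnit_of_dvd_one ?_)
    rw [← h2]
    exact dvd_add (Dvd.intro_left _ rfl) (h.mul_left _)
  have hin' : ∀ Q : k[X], Irreducible Q → Q ∣ expand k (p ^ e) b →
      Irreducible ((kgraph f0 (p ^ e)).map (AdjoinRoot.mk Q)) :=
    fun Q hQ hQb => kum_inert hp hζ' hm hcop hb hin e Q hQ hQb
  obtain ⟨G, hG⟩ : ∃ G : Fin (m + 1) → k[X][X],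
      ∀ i, G i = (g i).map (expand k (p ^ e) : k[X] →+* k[X]) := ⟨_, fun _ => rfl⟩
  have hGm : ∀ i, (G i).Monic := fun i => by
    rw [hG]
    exact (hg i).map _
  have hGf : (kgraph f0 (p ^ e)).scaleRoots (expand k (p ^ e) b) =
      C (expand k (p ^ e) P) + ∏ i, G i := by
    rw [map_eqB hm hn0 hf (p ^ e)]
    congr 1
    exact Finset.prod_congr rfl fun i _ => (hG i).symm
  have hGi : ∀ i, Irreducible ((G i).map (AdjoinRoot.mk (expand k (p ^ e) P))) := fun i => by
    rw [hG]
    exact map_pow_irr hPi hPN (hg i) (hgd i) (hi i)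
  have hGne : ∀ i i', i ≠ i' → (G i).map (AdjoinRoot.mk (expand k (p ^ e) P)) ≠
      (G i').map (AdjoinRoot.mk (expand k (p ^ e) P)) := fun i i' h => by
    rw [hG, hG]
    exact map_pow_ne hPi hPN (hne i i' h)
  have hcop' : p.Coprime (kgraph f0 (p ^ e)).natDegree := by rwa [natDegree_kgraph]
  have hj' : p ^ (s + 1) ∣ (kgraph f0 (p ^ e)).natDegree * j + 1 := by rwa [natDegree_kgraph]
  have hsm : SmoothC (kgraph f0 (p ^ e)) :=
    Pool.Agent.Y179.T7.st_smooth p k _ hp (Pool.Agent.Y160.FT.p_ne hp rfl hζ) ht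
  have hR : ∃ (R : Type) (_ : CommRing R) (_ : IsDedekindDomain R) (_ : Algebra k R) (t x : R),
      Pres t x (kgraph f0 (p ^ e)) ∧ PropT p k R := by
    obtain ⟨R, i1, i2, i3, t, x, h1, h2⟩ := tower_prop hp hζ' ht
    exact ⟨R, i1, i2, i3, t, x, h1, h2⟩
  exact conclB hT hp rfl hζ hmK hcop' hb' hPb' hin' hPN hGm hGf hGi hGne hj' hR hsepK hsm hirrF

end layers

end Pool.Agent.X261.MB
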