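import Pool.Agent.X261.MB.Cont
import Pool.Agent.X261.MS.Kum

/-!
The general theorem, and the curves `x ^ (2 m) + α x ^ m = t` with the sections `x = ξ ^ i a / b`.
-/

set_option autoImplicit false
set_option linter.all false

open Polynomial IsDedekindDomain WithZero
open scoped nonZeroDivisors Classical

namespace Pool.Agent.X261.MB

open Pool.Agent.TH115.GD (IsTower)
open Pool.Agent.Y160
open Pool.Agent.Y160.SE (SmoothC)
open Pool.Agent.Y160.SL (Concl)
open Pool.Agent.Y160.FT (Pres)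
open Pool.Agent.Y160.T7
open Pool.Agent.Y228.FT
open Pool.Agent.X261.TS
open Pool.Agent.X261.BC
open Pool.Agent.X261.MS (f0 irr_kummer)

section main

variable {k k' K F : Type} [Field k] [Field k'] [Algebra k k'] [Field K] [Algebra k[X] K]
  [Field F] [Algebra k'[X] F] [IsFractionRing k'[X] F] [Algebra K F] [IsFractionRing k[X] K]

theorem mainB (hT : IsTower k k' K F) {p s : ℕ} (hp : p.Prime) {ζ : k}
    (hζ : IsPrimitiveRoot ζ (p ^ (s + 1))) {f : k[X][X]} (hmon : f.Monic)
    (hcop : p.Coprime f.natDegree) (hirr : Irreducible (f.map (mapRingHom (algebraMap k k'))))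
    (hder : derivative f ≠ 0) (hsm : SmoothC f)
    (hR : ∃ _ : IsDedekindDomain (AdjoinRoot f), PropT p k (AdjoinRoot f)) {m : ℕ}
    {P : k[X]} {g : Fin (m + 1) → k[X][X]} {b : k[X]} (hb : b ≠ 0) (hPb : ¬ P ∣ b)
    (hin : ∀ Q : k[X], Irreducible Q → Q ∣ b → Irreducible (f.map (AdjoinRoot.mk Q)))
    (hPi : Irreducible P) (hg : ∀ i, (g i).Monic) (hf : f.scaleRoots b = C P + ∏ i, g i)
    (hi : ∀ i, Irreducible ((g i).map (AdjoinRoot.mk P)))
    (hne : ∀ i i', i ≠ i' → (g i).map (AdjoinRoot.mk P) ≠ (g i').map (AdjoinRoot.mk P))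
    {j : ℕ} (hj : p ^ (s + 1) ∣ f.natDegree * j + 1) :
    Concl p (p ^ (s + 1)) m k k' F ((f.scaleRoots (b * P ^ j)).map (algebraMap k[X] K)) := by
  have hirr2 := irrF' hT hmon hirr
  obtain ⟨hD, hprop⟩ := hR
  exact conclB hT hp rfl hζ hmon hcop hb hPb hin hPi hg hf hi hne hj
    ⟨AdjoinRoot f, inferInstance, hD, inferInstance, _, _, pres_adjoin f, hprop⟩
    (sepK hT hmon hirr hder) hsm hirr2

end main

section norm

variable {k : Type} [Field k]

theorem adjoin_root {P : k[X]} (hP : Irreducible P) :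
    letI : Fact (Irreducible P) := ⟨hP⟩
    IntermediateField.adjoin k {AdjoinRoot.root P} = ⊤ := by
  haveI : Fact (Irreducible P) := ⟨hP⟩
  rw [eq_top_iff]
  rintro z -
  obtain ⟨p, rfl⟩ := AdjoinRoot.mk_surjective z
  rw [← AdjoinRoot.aeval_eq]
  exact IntermediateField.algebra_adjoin_le_adjoin k _ (aeval_mem_adjoin_singleton k _)

/-- The norm of `c` minus the root. -/
theorem norm_sub_root {P : k[X]} (hP : Irreducible P) (c : k) :
    Algebra.norm k (algebraMap k (AdjoinRoot P) c - AdjoinRoot.root P) * P.leadingCoeff =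
      P.eval c := by
  haveI : Fact (Irreducible P) := ⟨hP⟩
  have hl : P.leadingCoeff ≠ 0 := leadingCoeff_ne_zero.2 hP.ne_zero
  obtain ⟨Q, hQ⟩ : ∃ Q : k[X], Q = P * C P.leadingCoeff⁻¹ := ⟨_, rfl⟩
  have hQm : Q.Monic := by
    rw [hQ]
    exact monic_mul_leadingCoeff_inv hP.ne_zero
  have hQi : Irreducible Q := by
    rw [hQ, irreducible_mul_isUnit (isUnit_C.2 (IsUnit.mk0 _ (inv_ne_zero hl)))]
    exact hP
  have h1 := Pool.Agent.X261.RO.norm_sub hQm hQi (θ := AdjoinRoot.root P) (by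
    rw [hQ, map_mul, AdjoinRoot.aeval_eq, AdjoinRoot.mk_self, zero_mul]) (adjoin_root hP) c
  rw [h1, hQ, eval_mul, eval_C, mul_assoc, inv_mul_cancel₀ hl, mul_one]

end norm

section inert

variable {k : Type} [Field k] {m : ℕ} {α ξ : k}

/-- A criterion for inert primes of the curves `x ^ (2 m) + α x ^ m = t`. -/
theorem inert (hm : 0 < m) (hξ : IsPrimitiveRoot ξ m) (h2 : (2 : k) ≠ 0) {Q : k[X]}
    (hQ : Irreducible Q)
    (h4 : ∀ v : k, (-1) ^ Q.natDegree * Q.eval (-(α ^ 2 / 4)) ≠ v ^ 2 * Q.leadingCoeff)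
    (hl : ∀ l : ℕ, l.Prime → l ∣ m → ∀ v : k, Q.eval 0 ≠ v ^ l * Q.leadingCoeff) :
    Irreducible ((graph (f0 m α)).map (AdjoinRoot.mk Q)) := by
  haveI : Fact (Irreducible Q) := ⟨hQ⟩
  obtain ⟨L, hL⟩ : ∃ L, L = AdjoinRoot Q := ⟨_, rfl⟩
  have hfin : Module.finrank k (AdjoinRoot Q) = Q.natDegree := by
    rw [(AdjoinRoot.powerBasis hQ.ne_zero).finrank, AdjoinRoot.powerBasis_dim]
  set τ : AdjoinRoot Q := AdjoinRoot.root Q with hτ
  set α' : AdjoinRoot Q := algebraMap k (AdjoinRoot Q) α with hα'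
  have h4k : (4 : k) ≠ 0 := by
    intro h0
    apply h2
    have : (2 : k) * 2 = 0 := by linear_combination h0
    rcases mul_eq_zero.1 this with h | h <;> exact h
  -- the quadratic polynomial
  set H : (AdjoinRoot Q)[X] := X ^ 2 + C α' * X - C τ with hH
  have hHm : H.Monic := by
    rw [hH]
    monicity!
  have hHd : H.natDegree = 2 := by
    rw [hH]
    compute_degree!
  have hHi : Irreducible H := by
    rw [irreducible_iff_roots_eq_zero_of_degree_le_three (by omega) (by omega)]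
    refine Multiset.eq_zero_of_forall_notMem fun v h => ?_
    have h1 := (mem_roots'.1 h).2
    rw [IsRoot.def, hH] at h1
    simp only [eval_sub, eval_add, eval_mul, eval_pow, eval_X, eval_C] at h1
    have h5 : algebraMap k (AdjoinRoot Q) (-(α ^ 2 / 4)) - τ =
        algebraMap k (AdjoinRoot Q) (-(1 / 4)) * (2 * v + α') ^ 2 := by
      have h6 : algebraMap k (AdjoinRoot Q) (-(α ^ 2 / 4)) =
          algebraMap k (AdjoinRoot Q) (-(1 / 4)) * α' ^ 2 := by
        rw [hα', ← map_pow, ← map_mul]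
        congr 1
        ring
      have h7 : algebraMap k (AdjoinRoot Q) (-(1 / 4)) * 4 = -1 := by
        have : (4 : AdjoinRoot Q) = algebraMap k (AdjoinRoot Q) 4 := (map_ofNat _ 4).symm
        rw [this, ← map_mul]
        have h8 : (-(1 / 4) * 4 : k) = -1 := by field_simp
        rw [h8, map_neg, map_one]
      rw [h6]
      linear_combination h1 - (v ^ 2 + α' * v) * h7
    have h6 := norm_sub_root hQ (-(α ^ 2 / 4))
    rw [← hτ, h5, map_mul, Algebra.norm_algebraMap, hfin, map_pow] at h6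
    refine h4 (Algebra.norm k (2 * v + α') * (1 / 2) ^ Q.natDegree) ?_
    rw [← h6]
    have h7 : (-(1 / 4) : k) = -1 * (1 / 2) ^ 2 := by
      field_simp
      norm_num
    rw [h7, mul_pow, mul_pow, ← pow_mul, mul_comm 2 Q.natDegree, pow_mul]
    have h8 : ((-1 : k)) ^ Q.natDegree * (-1) ^ Q.natDegree = 1 := by
      rw [← mul_pow, neg_one_mul, neg_neg, one_pow]
    linear_combination ((1 / 2) ^ Q.natDegree) ^ 2 * (Algebra.norm k (2 * v + α')) ^ 2 *
      Q.leadingCoeff * h8
  have hcomp : (graph (f0 m α)).map (AdjoinRoot.mk Q) = H.comp (X ^ m) := by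
    unfold graph f0
    rw [Polynomial.map_sub, map_C, Polynomial.map_map, Polynomial.map_add, Polynomial.map_mul,
      Polynomial.map_pow, Polynomial.map_pow, map_X, map_C, hH, sub_comp, add_comp, mul_comp,
      pow_comp, X_comp, C_comp, C_comp, ← pow_mul, mul_comm m 2]
    rfl
  rw [hcomp]
  refine Polynomial.irreducible_comp hHm (monic_X_pow m) hHi fun E _ _ x hx => ?_
  have hint : IsIntegral (AdjoinRoot Q) x := by
    by_contra h
    rw [minpoly.eq_zero h] at hx
    exact hHm.ne_zero hx.symm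
  haveI : FiniteDimensional (AdjoinRoot Q) (IntermediateField.adjoin (AdjoinRoot Q) {x}) :=
    IntermediateField.adjoin.finiteDimensional hint
  rw [Polynomial.map_pow, map_X]
  have hinj : Function.Injective
      (algebraMap (AdjoinRoot Q) (IntermediateField.adjoin (AdjoinRoot Q) {x})) :=
    (algebraMap (AdjoinRoot Q) (IntermediateField.adjoin (AdjoinRoot Q) {x})).injective
  have hξ' : IsPrimitiveRoot (algebraMap (AdjoinRoot Q)
      (IntermediateField.adjoin (AdjoinRoot Q) {x}) (algebraMap k (AdjoinRoot Q) ξ)) m :=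
    (hξ.map_of_injective (f := algebraMap k (AdjoinRoot Q)) (algebraMap k _).injective).map_of_injective
      hinj
  refine irr_kummer hm hξ' fun l hlp hlm v hv => ?_
  have h5 := Algebra.PowerBasis.norm_gen_eq_coeff_zero_minpoly
    (IntermediateField.adjoin.powerBasis hint)
  have h6 : (IntermediateField.adjoin.powerBasis hint).gen =
      IntermediateField.AdjoinSimple.gen (AdjoinRoot Q) x :=
    IntermediateField.adjoin.powerBasis_gen hint
  have h7 : (IntermediateField.adjoin.powerBasis hint).dim = 2 := by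
    rw [IntermediateField.adjoin.powerBasis_dim, hx, hHd]
  rw [h6, h7, IntermediateField.minpoly_gen, hx, hv, map_pow] at h5
  have h8 : H.coeff 0 = -τ := by
    rw [hH]
    simp
  rw [h8, neg_one_sq, one_mul] at h5
  have h9 := norm_sub_root hQ 0
  rw [map_zero, zero_sub, ← hτ, ← h5, map_pow] at h9
  exact hl l hlp hlm _ h9.symm

end inert

section fam

variable {k : Type} [Field k] {m : ℕ} {α ξ : k} {a b : k[X]}

/-- `P = a ^ (2 m) + α a ^ m b ^ m - b ^ (2 m) t`. -/
noncomputable def PB (m : ℕ) (α : k) (a b : k[X]) : k[X] :=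
  a ^ (2 * m) + C α * (a ^ m * b ^ m) - b ^ (2 * m) * X

/-- The factors. -/
noncomputable def gB (m : ℕ) (α ξ : k) (a b : k[X]) (i : Fin (m + 1)) : k[X][X] :=
  if (i : ℕ) < m then X - C (C (ξ ^ (i : ℕ)) * a) else X ^ m + C (a ^ m + C α * b ^ m)

theorem gB_lt (i : Fin m) : gB m α ξ a b i.castSucc = X - C (C (ξ ^ (i : ℕ)) * a) := by
  unfold gB
  rw [if_pos (by exact i.2)]
  rfl

theorem gB_last : gB m α ξ a b (Fin.last m) = X ^ m + C (a ^ m + C α * b ^ m) := by
  unfold gB
  rw [if_neg (by simp)]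

theorem gB_monic (hm : 0 < m) (i : Fin (m + 1)) : (gB m α ξ a b i).Monic := by
  unfold gB
  split_ifs
  · exact monic_X_sub_C _
  · exact monic_X_pow_add_C _ hm.ne'

theorem f0_scale (hm : 0 < m) (b : k[X]) : (graph (f0 m α)).scaleRoots b =
    X ^ (2 * m) + C (C α * b ^ m) * X ^ m - C (b ^ (2 * m) * X) := by
  have hd : (graph (f0 m α)).natDegree = 2 * m := by
    rw [natDegree_graph, Pool.Agent.X261.MS.f0_deg hm]
  ext1 n
  rw [coeff_scaleRoots, hd]
  unfold graph f0
  simp only [Polynomial.map_add, Polynomial.map_mul, Polynomial.map_pow, map_X, map_C, coeff_sub,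
    coeff_add, coeff_C_mul, coeff_X_pow, coeff_C]
  by_cases h0 : n = 0
  · subst h0
    rw [if_neg (by omega), if_neg (by omega), if_pos rfl, if_pos rfl, Nat.sub_zero]
    ring
  · rw [if_neg h0, if_neg h0]
    by_cases h1 : n = 2 * m
    · subst h1
      rw [if_pos rfl, if_neg (by omega), Nat.sub_self]
      ring
    · rw [if_neg h1]
      by_cases h2 : n = m
      · subst h2
        rw [if_pos rfl, show 2 * n - n = n by omega]
        ring
      · rw [if_neg h2]
        ring

theorem fac_B (hm : 0 < m) (hξ : IsPrimitiveRoot ξ m) :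
    (graph (f0 m α)).scaleRoots b = C (PB m α a b) + ∏ i, gB m α ξ a b i := by
  rw [f0_scale hm, Fin.prod_univ_castSucc]
  simp only [gB_lt, gB_last]
  have hξ' : IsPrimitiveRoot (C ξ : k[X]) m := hξ.map_of_injective C_injective
  have e1 : ∏ i : Fin m, (X - C (C (ξ ^ (i : ℕ)) * a)) = (X ^ m - C (a ^ m) : k[X][X]) := by
    rw [X_pow_sub_C_eq_prod hξ' hm rfl, ← Fin.prod_univ_eq_prod_range
      (fun i => X - C ((C ξ) ^ i * a)) m]
    refine Finset.prod_congr rfl fun i _ => ?_
    rw [C_pow]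
  rw [e1]
  unfold PB
  simp only [C_add, C_sub, C_mul, C_pow]
  ring

theorem PB_dvd (hab : IsCoprime a b) (hP : Irreducible (PB m α a b)) (hm : 0 < m)
    (h0 : (PB m α a b).eval 0 ≠ 0) : ¬ PB m α a b ∣ b ∧ ¬ PB m α a b ∣ a := by
  have hPp := hP.prime
  have h1 : ¬ PB m α a b ∣ b := by
    intro h
    have h2 : PB m α a b ∣ a ^ (2 * m) := by
      have e : a ^ (2 * m) = PB m α a b - C α * (a ^ m * b ^ m) + b ^ (2 * m) * X := by
        unfold PB
        ring
      rw [e]
      refine dvd_add (dvd_sub dvd_rfl ?_) ?_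
      · exact ((dvd_pow h hm.ne').mul_left _).mul_left _
      · exact (dvd_pow h (by omega)).mul_right _
    exact hP.not_isUnit (hab.isUnit_of_dvd' (hPp.dvd_of_dvd_pow h2) h)
  refine ⟨h1, fun h => ?_⟩
  have h2 : PB m α a b ∣ b ^ (2 * m) * X := by
    have e : b ^ (2 * m) * X = a ^ (2 * m) + C α * (a ^ m * b ^ m) - PB m α a b := by
      unfold PB
      ring
    rw [e]
    refine dvd_sub (dvd_add (dvd_pow h (by omega)) ?_) dvd_rfl
    exact ((dvd_pow h hm.ne').mul_right _).mul_left _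
  rcases hPp.dvd_or_dvd h2 with h3 | h3
  · exact h1 (hPp.dvd_of_dvd_pow h3)
  · have h4 := (hP.associated_of_dvd irreducible_X h3).symm
    obtain ⟨w, hw⟩ := h4.dvd
    apply h0
    rw [hw, eval_mul, eval_X, zero_mul]

theorem gB_irr (hm : 0 < m) (hξ : IsPrimitiveRoot ξ m) (hab : IsCoprime a b)
    (hP : Irreducible (PB m α a b))
    (hl : ∀ l : ℕ, l.Prime → l ∣ m → ∀ v : k,
      (PB m α a b).eval 0 ≠ v ^ l * (PB m α a b).leadingCoeff)
    (h0 : (PB m α a b).eval 0 ≠ 0) (i : Fin (m + 1)) :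
    Irreducible ((gB m α ξ a b i).map (AdjoinRoot.mk (PB m α a b))) := by
  haveI : Fact (Irreducible (PB m α a b)) := ⟨hP⟩
  obtain ⟨hPb, hPa⟩ := PB_dvd hab hP hm h0
  obtain ⟨P, hPdef⟩ : ∃ P, P = PB m α a b := ⟨_, rfl⟩
  refine Fin.lastCases ?_ (fun i => ?_) i
  · rw [gB_last, Polynomial.map_add, Polynomial.map_pow, map_X, map_C]
    set φ := AdjoinRoot.mk (PB m α a b) with hφ
    have hξ' : IsPrimitiveRoot (φ (C ξ)) m :=
      hξ.map_of_injective (f := φ.comp C) ((φ.comp C).injective)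
    have hφa : φ a ≠ 0 := fun h => hPa (AdjoinRoot.mk_eq_zero.1 h)
    have hφb : φ b ≠ 0 := fun h => hPb (AdjoinRoot.mk_eq_zero.1 h)
    have e0 : φ (PB m α a b) = 0 := AdjoinRoot.mk_self
    have e1 : φ (b ^ (2 * m)) * φ X = φ (a ^ m) * φ (a ^ m + C α * b ^ m) := by
      have h1 : b ^ (2 * m) * X = a ^ m * (a ^ m + C α * b ^ m) - PB m α a b := by
        unfold PB
        ring
      rw [← map_mul, h1, map_sub, e0, sub_zero, map_mul]
    have e2 : (X ^ m + C (φ (a ^ m + C α * b ^ m)) : (AdjoinRoot (PB m α a b))[X]) =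
        X ^ m - C (-(φ (a ^ m + C α * b ^ m))) := by
      rw [C_neg, sub_neg_eq_add]
    rw [e2]
    refine irr_kummer hm hξ' fun l hlp hlm v hv => ?_
    obtain ⟨r, hr⟩ := hlm
    have e3 : -(AdjoinRoot.root (PB m α a b)) = (φ a ^ r * v / φ b ^ (2 * r)) ^ l := by
      rw [div_pow, mul_pow, ← hv, ← pow_mul, ← pow_mul, mul_comm r l, ← hr,
        show 2 * r * l = 2 * m by rw [hr]; ring, eq_div_iff (pow_ne_zero _ hφb)]
      have h2 : AdjoinRoot.root (PB m α a b) = φ X := rfl
      rw [h2, ← map_pow, ← map_pow]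
      linear_combination (-1) * e1
    have h3 := norm_sub_root hP 0
    rw [map_zero, zero_sub, e3, map_pow] at h3
    exact hl l hlp ⟨r, hr⟩ _ h3.symm
  · rw [gB_lt, Polynomial.map_sub, map_X, map_C]
    exact irreducible_X_sub_C _

theorem gB_ne (hm : 1 < m) (hξ : IsPrimitiveRoot ξ m) (hab : IsCoprime a b)
    (hP : Irreducible (PB m α a b)) (h0 : (PB m α a b).eval 0 ≠ 0) {i i' : Fin (m + 1)}
    (hne : i ≠ i') : (gB m α ξ a b i).map (AdjoinRoot.mk (PB m α a b)) ≠
      (gB m α ξ a b i').map (AdjoinRoot.mk (PB m α a b)) := by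
  haveI : Fact (Irreducible (PB m α a b)) := ⟨hP⟩
  obtain ⟨hPb, hPa⟩ := PB_dvd hab hP (by omega) h0
  have hdl : ((gB m α ξ a b (Fin.last m)).map (AdjoinRoot.mk (PB m α a b))).natDegree = m := by
    rw [(gB_monic (by omega) _).natDegree_map, gB_last, natDegree_X_pow_add_C]
  have hdi : ∀ i : Fin m,
      ((gB m α ξ a b i.castSucc).map (AdjoinRoot.mk (PB m α a b))).natDegree = 1 := by
    intro i
    rw [(gB_monic (by omega) _).natDegree_map, gB_lt, natDegree_X_sub_C]
  intro h
  induction i using Fin.lastCases with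
  | last =>
    induction i' using Fin.lastCases with
    | last => exact hne rfl
    | cast i' =>
      have h1 := congrArg natDegree h
      rw [hdl, hdi] at h1
      omega
  | cast i =>
    induction i' using Fin.lastCases with
    | last =>
      have h1 := congrArg natDegree h
      rw [hdl, hdi] at h1
      omega
    | cast i' =>
      rw [gB_lt, gB_lt, Polynomial.map_sub, Polynomial.map_sub, map_X, map_C, map_C] at h
      have h1 := C_injective (sub_right_injective h)
      have hφa : AdjoinRoot.mk (PB m α a b) a ≠ 0 := fun h => hPa (AdjoinRoot.mk_eq_zero.1 h)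
      rw [map_mul, map_mul] at h1
      have h2 := mul_right_cancel₀ hφa h1
      have h3 : ξ ^ (i : ℕ) = ξ ^ (i' : ℕ) :=
        ((AdjoinRoot.mk (PB m α a b)).comp C).injective h2
      exact hne (congrArg Fin.castSucc (Fin.ext (hξ.pow_inj i.2 i'.2 h3)))

end fam

end Pool.Agent.X261.MB
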