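import Pool.Agent.X261.MF.Main

/-!
A prime `P` of `k[t]` such that `b ^ n f(x / b) - P` is a product of polynomials irreducible modulo `P`.
-/

set_option autoImplicit false
set_option linter.all false

open Polynomial IsDedekindDomain WithZero
open scoped nonZeroDivisors Classical

namespace Pool.Agent.X261.MB

open Pool.Agent.Y160.SE (IsPw)
open Pool.Agent.Y160.FT (Pres)
open Pool.Agent.Y228.FT
open Pool.Agent.X261.TS (dvd_pres exists_exp exists_shift)
open Pool.Agent.X261.RO (ev ev_C)
open Pool.Agent.X261.MF (ev_mul ev_sub ev_prod aeval_P_ne)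

section primes

variable {k R : Type} [Field k] [CommRing R] [IsDomain R] [Algebra k R] {t x : R} {f : k[X][X]}
  {ι : Type} [Fintype ι] {g : ι → k[X][X]} {P b : k[X]}

theorem ev_add (t x : R) (a b : k[X][X]) : ev t x (a + b) = ev t x a + ev t x b := by
  unfold ev
  exact eval₂_add _ _

theorem ev_scale (t x : R) (b : k[X]) (p : k[X][X]) :
    ev t (aeval t b * x) (p.scaleRoots b) = (aeval t b) ^ p.natDegree * ev t x p := by
  unfold ev
  exact scaleRoots_eval₂_mul (p := p) ((aeval t : k[X] →ₐ[k] R) : k[X] →+* R) x b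

theorem ev_f (h : Pres t x f) : ev t (aeval t b * x) (f.scaleRoots b) = 0 := by
  rw [ev_scale]
  have h1 : ev t x f = 0 := (h.ker f).2 dvd_rfl
  rw [h1, mul_zero]

theorem ev_P (h : Pres t x f) (hf : f.scaleRoots b = C P + ∏ i, g i) :
    aeval t P = -∏ i, ev t (aeval t b * x) (g i) := by
  have h1 := ev_f (b := b) h
  rw [← ev_prod, ← ev_C t (aeval t b * x) P]
  rw [hf, ev_add] at h1
  linear_combination h1

/-- The kernel. -/
theorem ker_y (h : Pres t x f) (hm : f.Monic) (hb : b ≠ 0) (s : k[X][X])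
    (hs : ev t (aeval t b * x) s = 0) : f.scaleRoots b ∣ s := by
  have hmb : (f.scaleRoots b).Monic := (monic_scaleRoots_iff b).2 hm
  rw [← modByMonic_eq_zero_iff_dvd hmb]
  set r := s %ₘ (f.scaleRoots b) with hr
  have h1 : ev t (aeval t b * x) r = 0 := by
    have h2 := modByMonic_add_div s (f.scaleRoots b)
    have h3 := congrArg (ev t (aeval t b * x)) h2
    rw [ev_add, ev_mul, ev_f h, zero_mul, add_zero, hs] at h3
    exact h3
  -- `r(b x)`
  have h4 : ev t x (r.comp (C b * X)) = 0 := by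
    unfold ev at h1 ⊢
    rw [eval₂_comp, eval₂_mul, eval₂_C, eval₂_X]
    exact h1
  have h5 := (h.ker _).1 h4
  have hdeg : (r.comp (C b * X)).natDegree = r.natDegree := by
    rw [natDegree_comp, natDegree_C_mul_X _ hb, mul_one]
  by_contra hne
  have hc : r.comp (C b * X) ≠ 0 := by
    intro h0
    have h6 := congrArg (fun p => p.coeff r.natDegree) h0
    simp only [coeff_zero] at h6
    rw [comp_C_mul_X_coeff] at h6
    rcases mul_eq_zero.1 h6 with h7 | h7
    · exact hne (leadingCoeff_eq_zero.1 h7)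
    · exact pow_ne_zero _ hb h7
  have h8 := natDegree_le_of_dvd h5 hc
  rw [hdeg] at h8
  by_cases h1' : f.scaleRoots b = 1
  · rw [hr, h1', modByMonic_one] at hne
    exact hne rfl
  · have h9 := natDegree_modByMonic_lt s hmb h1'
    rw [natDegree_scaleRoots, ← hr] at h9
    omega

/-- Surjectivity up to powers of `b`. -/
theorem surj_y (h : Pres t x f) (z : R) : ∃ s : k[X][X], ∃ N : ℕ,
    (aeval t b) ^ N * z = ev t (aeval t b * x) s := by
  obtain ⟨p, rfl⟩ := h.surj z
  exact ⟨p.scaleRoots b, p.natDegree, (ev_scale t x b p).symm⟩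

variable (hbP : IsCoprime b P)

include hbP in
/-- `b` is a unit modulo the elements dividing `P`. -/
theorem cancel_b {A : R} (hA : A ∣ aeval t P) {N : ℕ} {z : R} (h : A ∣ (aeval t b) ^ N * z) :
    A ∣ z := by
  obtain ⟨u, v, huv⟩ := (hbP.pow_left (m := N) : IsCoprime (b ^ N) P)
  have h1 := congrArg (aeval t) huv
  rw [map_add, map_mul, map_mul, map_one, map_pow] at h1
  have h2 : z = aeval t u * ((aeval t b) ^ N * z) + aeval t v * z * aeval t P := by
    linear_combination (-z) * h1
  rw [h2]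
  exact dvd_add (h.mul_left _) (hA.mul_left _)

theorem A_dvd_P (h : Pres t x f) (hf : f.scaleRoots b = C P + ∏ i, g i) (i : ι) :
    ev t (aeval t b * x) (g i) ∣ aeval t P := by
  rw [ev_P h hf, dvd_neg]
  exact Finset.dvd_prod_of_mem _ (Finset.mem_univ i)

theorem map_f (hf : f.scaleRoots b = C P + ∏ i, g i) :
    (f.scaleRoots b).map (AdjoinRoot.mk P) = ∏ i, (g i).map (AdjoinRoot.mk P) := by
  rw [hf, Polynomial.map_add, map_C, AdjoinRoot.mk_self, C_0, zero_add, Polynomial.map_prod]

include hbP in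
theorem dvd_G (h : Pres t x f) (hm : f.Monic) (hb : b ≠ 0)
    (hf : f.scaleRoots b = C P + ∏ i, g i) (i : ι) (p : k[X][X]) :
    ev t (aeval t b * x) (g i) ∣ ev t (aeval t b * x) p ↔
      (g i).map (AdjoinRoot.mk P) ∣ p.map (AdjoinRoot.mk P) := by
  constructor
  · rintro ⟨r, hr⟩
    obtain ⟨s, N, hs⟩ := surj_y (b := b) h r
    have h1 : ev t (aeval t b * x) (C (b ^ N) * p - g i * s) = 0 := by
      rw [ev_sub, ev_mul, ev_mul, ev_C, map_pow, hr, ← hs]
      ring
    obtain ⟨w, hw⟩ := ker_y h hm hb _ h1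
    have h2 : (g i).map (AdjoinRoot.mk P) ∣ (C (b ^ N) * p - g i * s).map (AdjoinRoot.mk P) := by
      rw [hw, Polynomial.map_mul, map_f hf]
      exact (Finset.dvd_prod_of_mem _ (Finset.mem_univ i)).mul_right _
    rw [Polynomial.map_sub, Polynomial.map_mul, Polynomial.map_mul, map_C] at h2
    have h3 := (dvd_sub_left (dvd_mul_right _ _)).1 h2
    have hu : IsUnit (AdjoinRoot.mk P (b ^ N)) := by
      obtain ⟨u, v, huv⟩ := (hbP.pow_left (m := N) : IsCoprime (b ^ N) P)
      have h4 := congrArg (AdjoinRoot.mk P) huv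
      rw [map_add, map_mul, map_mul, AdjoinRoot.mk_self, mul_zero, add_zero, map_one] at h4
      exact IsUnit.of_mul_eq_one _ (by rw [mul_comm]; exact h4)
    exact (isUnit_C.2 hu).dvd_mul_left.1 h3
  · rintro ⟨s, hs⟩
    obtain ⟨s', rfl⟩ := Polynomial.map_surjective (AdjoinRoot.mk P) AdjoinRoot.mk_surjective s
    have h1 : C P ∣ p - g i * s' := by
      rw [C_dvd_iff_dvd_coeff]
      intro n
      have h2 : ((p - g i * s').map (AdjoinRoot.mk P)).coeff n = 0 := by
        rw [Polynomial.map_sub, Polynomial.map_mul, hs, sub_self, coeff_zero]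
      rw [coeff_map, AdjoinRoot.mk_eq_zero] at h2
      exact h2
    obtain ⟨r, hr⟩ := h1
    have h2 : p = g i * s' + C P * r := by linear_combination hr
    rw [h2, ev_add, ev_mul, ev_mul, ev_C]
    exact dvd_add (dvd_mul_right _ _) ((A_dvd_P h hf i).mul_right _)

include hbP in
theorem prime_G (h : Pres t x f) (hm : f.Monic) (hb : b ≠ 0)
    (hf : f.scaleRoots b = C P + ∏ i, g i) (hn : 0 < f.natDegree)
    (hP : Irreducible P) (i : ι) (hi : Irreducible ((g i).map (AdjoinRoot.mk P))) :
    Prime (ev t (aeval t b * x) (g i)) := by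
  haveI : Fact (Irreducible P) := ⟨hP⟩
  refine ⟨?_, ?_, ?_⟩
  · intro h0
    have h1 := A_dvd_P h hf i
    rw [h0, zero_dvd_iff] at h1
    exact aeval_P_ne h hn hP.ne_zero h1
  · intro hu
    have h1 : ev t (aeval t b * x) (g i) ∣ ev t (aeval t b * x) (1 : k[X][X]) := by
      unfold ev
      rw [eval₂_one]
      exact hu.dvd
    rw [dvd_G hbP h hm hb hf, Polynomial.map_one] at h1
    exact hi.not_isUnit (isUnit_of_dvd_one h1)
  · intro u v huv
    obtain ⟨u', N, hu'⟩ := surj_y (b := b) h u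
    obtain ⟨v', M, hv'⟩ := surj_y (b := b) h v
    have h0 : ev t (aeval t b * x) (g i) ∣ ev t (aeval t b * x) (u' * v') := by
      rw [ev_mul, ← hu', ← hv']
      exact (huv.mul_left ((aeval t b) ^ N * (aeval t b) ^ M)).trans (dvd_of_eq (by ring))
    have h1 := (dvd_G hbP h hm hb hf i (u' * v')).1 h0
    rw [Polynomial.map_mul] at h1
    rcases hi.prime.dvd_or_dvd h1 with h2 | h2
    · have h3 := (dvd_G hbP h hm hb hf i u').2 h2
      rw [← hu'] at h3
      exact Or.inl (cancel_b hbP (A_dvd_P h hf i) h3)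
    · have h3 := (dvd_G hbP h hm hb hf i v').2 h2
      rw [← hv'] at h3
      exact Or.inr (cancel_b hbP (A_dvd_P h hf i) h3)

include hbP in
theorem ndvd_G (h : Pres t x f) (hm : f.Monic) (hb : b ≠ 0)
    (hf : f.scaleRoots b = C P + ∏ i, g i) (hP : Irreducible P)
    (hg : ∀ i, (g i).Monic) (hi : ∀ i, Irreducible ((g i).map (AdjoinRoot.mk P))) {i i' : ι}
    (hne : (g i).map (AdjoinRoot.mk P) ≠ (g i').map (AdjoinRoot.mk P)) :
    ¬ ev t (aeval t b * x) (g i) ∣ ev t (aeval t b * x) (g i') := by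
  haveI : Fact (Irreducible P) := ⟨hP⟩
  rw [dvd_G hbP h hm hb hf]
  intro h1
  exact hne (eq_of_monic_of_associated ((hg i).map _) ((hg i').map _)
    ((hi i).associated_of_dvd (hi i') h1))

end primes

end Pool.Agent.X261.MB
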