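import Pool.Agent.X261.MB.Prm

/-!
Functions whose divisor is divisible by `q` away from `P` and inert primes, and whose norm is a `q`-th
power: the divisor is divisible by `q` at the inert primes.
-/

set_option autoImplicit false
set_option linter.all false

open Polynomial IsDedekindDomain WithZero
open scoped nonZeroDivisors Classical

namespace Pool.Agent.X261.MB

open Pool.Agent.Y160.SE (IsPw)
open Pool.Agent.Y160.FT (Pres)
open Pool.Agent.Y160.T7
open Pool.Agent.Y228.FT
open Pool.Agent.X261.TS (exists_exp exists_shift)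
open Pool.Agent.X261.RO (eq_of_dvd dvd_exp)
open Pool.Agent.X261.MF (adjustG)

section adjust

variable {k R N : Type} [Field k] [CommRing R] [IsDedekindDomain R] [Field N] [Algebra R N]
  [IsFractionRing R N] [Algebra k[X] R]

theorem adjustQ {q : ℕ} (hq : 0 < q) (Q : HeightOneSpectrum R → Prop) (D : k[X]) :
    D ≠ 0 → (∀ P : k[X], Irreducible P → P ∣ D → Prime (algebraMap k[X] R P)) →
    ∀ z : N, z ≠ 0 → (∀ v : HeightOneSpectrum R, Q v → algebraMap k[X] R D ∉ v.asIdeal →
      IsPw q (v.valuation N z)) →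
    ∃ h : k[X], h ≠ 0 ∧ (∀ P : k[X], Irreducible P → P ∣ h → P ∣ D) ∧
      ∀ v : HeightOneSpectrum R, Q v →
        IsPw q (v.valuation N (z * algebraMap R N (algebraMap k[X] R h))) := by
  induction D using WfDvdMonoid.induction_on_irreducible with
  | zero => exact fun h => absurd rfl h
  | unit u hu =>
    intro _ _ z hz hv
    refine ⟨1, one_ne_zero, fun P hP h1 => absurd (isUnit_of_dvd_one h1) hP.not_isUnit,
      fun v hQ => ?_⟩
    rw [map_one, map_one, mul_one]
    refine hv v hQ fun h => ?_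
    exact v.isPrime.ne_top (Ideal.eq_top_of_isUnit_mem _ h (hu.map _))
  | mul D P hD0 hP ih =>
    intro hPD hpr z hz hv
    have hπ : Prime (algebraMap k[X] R P) := hpr P hP (Dvd.intro _ rfl)
    obtain ⟨a, ha⟩ := exists_exp (γ := (vpr hπ).valuation N z)
      ((Valuation.ne_zero_iff _).2 hz)
    obtain ⟨n, hn⟩ := exists_shift hq a
    have hπN : algebraMap R N (algebraMap k[X] R P) ≠ 0 := fun h0 =>
      hπ.ne_zero (IsFractionRing.injective R N (by rw [h0, map_zero]))
    have hz1 : z * algebraMap R N (algebraMap k[X] R P) ^ n ≠ 0 := mul_ne_zero hz (pow_ne_zero n hπN)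
    obtain ⟨h, hh, hhd, hv1⟩ := ih hD0 (fun Q hQ hQD => hpr Q hQ (hQD.mul_left P))
      (z * algebraMap R N (algebraMap k[X] R P) ^ n) hz1 (by
        intro v hQ hvD
        rw [map_mul, map_pow, HeightOneSpectrum.valuation_of_algebraMap]
        by_cases h1 : v.intValuation (algebraMap k[X] R P) = 1
        · rw [h1, one_pow, mul_one]
          refine hv v hQ fun h2 => ?_
          rw [map_mul] at h2
          rcases v.isPrime.mem_or_mem h2 with h3 | h3
          · exact ((v.intValuation_lt_one_iff_mem _).2 h3).ne h1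
          · exact hvD h3
        · rw [eq_vpr hπ v h1, vpr_self, ha, ← exp_nsmul, ← exp_add]
          have e : a + n • (-1 : ℤ) = a - n := by
            rw [nsmul_eq_mul]
            ring
          rw [e]
          exact hn)
    refine ⟨P ^ n * h, mul_ne_zero (pow_ne_zero n hP.ne_zero) hh, fun P' hP' hd => ?_,
      fun v hQ => ?_⟩
    · rcases hP'.prime.dvd_or_dvd hd with h1 | h1
      · exact (hP'.prime.dvd_of_dvd_pow h1).mul_right _
      · exact (hhd P' hP' h1).mul_left _
    have e : z * algebraMap R N (algebraMap k[X] R (P ^ n * h)) =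
        z * algebraMap R N (algebraMap k[X] R P) ^ n * algebraMap R N (algebraMap k[X] R h) := by
      rw [map_mul, map_mul, map_pow, map_pow, mul_assoc]
    rw [e]
    exact hv1 v hQ

end adjust

section exp

variable {k : Type} [Field k]

theorem dvd_exp' {P α β h : k[X]} (hP : Irreducible P) (hh : ¬ P ∣ h) {u : k} (hu : u ≠ 0)
    {q e n : ℕ} (hα : α ≠ 0) (hβ : β ≠ 0) (he : P ^ e * h ^ n * β ^ q = C u * α ^ q) : q ∣ e := by
  have hh0 : h ≠ 0 := fun h0 => hh (h0 ▸ dvd_zero P)
  have hfin : ∀ Z : k[X], Z ≠ 0 → FiniteMultiplicity P Z := fun Z hZ =>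
    FiniteMultiplicity.of_prime_left hP.prime hZ
  have h1 := congrArg (multiplicity P) he
  have hu' : (C u : k[X]) ≠ 0 := C_ne_zero.2 hu
  have hPe := pow_ne_zero e hP.ne_zero
  have hhn := pow_ne_zero n hh0
  rw [multiplicity_mul hP.prime (hfin _ (mul_ne_zero (mul_ne_zero hPe hhn) (pow_ne_zero _ hβ))),
    multiplicity_mul hP.prime (hfin _ (mul_ne_zero hPe hhn)),
    multiplicity_mul hP.prime (hfin _ (mul_ne_zero hu' (pow_ne_zero _ hα)))] at h1
  rw [(hfin α hα).multiplicity_pow hP.prime, (hfin β hβ).multiplicity_pow hP.prime,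
    (hfin P hP.ne_zero).multiplicity_pow hP.prime, (hfin h hh0).multiplicity_pow hP.prime] at h1
  have h2 : multiplicity P (C u) = 0 := multiplicity_eq_zero.2 fun h3 =>
    hP.not_isUnit (isUnit_of_dvd_unit h3 (isUnit_C.2 (isUnit_iff_ne_zero.2 hu)))
  have h3 : multiplicity P P = 1 := by
    have h5 : ¬ P ^ 2 ∣ P := by
      intro h6
      have h7 := natDegree_le_of_dvd h6 hP.ne_zero
      rw [natDegree_pow] at h7
      have := hP.natDegree_pos
      omega
    exact multiplicity_eq_of_dvd_of_not_dvd (by rw [pow_one]) h5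
  have h4 : multiplicity P h = 0 := multiplicity_eq_zero.2 hh
  rw [h2, h3, h4, mul_one, mul_zero, add_zero, zero_add] at h1
  refine (Nat.dvd_add_left (dvd_mul_right q (multiplicity P β))).1 ?_
  rw [h1]
  exact dvd_mul_right _ _

end exp

section reduce

variable {k K R N : Type} [Field k] [CommRing R] [IsDedekindDomain R] [Field N] [Algebra R N]
  [IsFractionRing R N] [Algebra k[X] R] [Field K] [Algebra k[X] K] [IsFractionRing k[X] K]
  [Algebra K N] [Algebra k[X] N] [IsScalarTower k[X] K N] [IsScalarTower k[X] R N] {m : ℕ}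

theorem reduceB [FiniteDimensional K N] {q : ℕ} (hq : 1 < q) {n : ℕ}
    (hn : Module.finrank K N = n) (hcop : n.Coprime q) {P b : k[X]} (hPi : Irreducible P)
    (hb : b ≠ 0) (hPb : ¬ P ∣ b)
    (hpr : ∀ P : k[X], Irreducible P → P ∣ b → Prime (algebraMap k[X] R P)) {A : Fin m → R}
    {B : R} (hA : ∀ i, Prime (A i)) (hB : Prime B) (hBA : ∀ i, ¬ B ∣ A i)
    (hAA : ∀ i j, i ≠ j → ¬ A i ∣ A j) (hP : algebraMap k[X] R P = -((∏ i, A i) * B))
    {d : Fin m → ℕ} {dB : ℕ}
    (hNA : ∀ i, Algebra.norm K (algebraMap R N (A i)) = ((-1) ^ n * algebraMap k[X] K P) ^ d i)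
    (hNB : Algebra.norm K (algebraMap R N B) = ((-1) ^ n * algebraMap k[X] K P) ^ dB)
    (hR : ∀ z : N, z ≠ 0 → (∀ v : HeightOneSpectrum R, IsPw q (v.valuation N z)) →
      ∃ (u : k) (g0 : N), u ≠ 0 ∧ g0 ≠ 0 ∧ z = algebraMap k[X] N (C u) * g0 ^ q)
    {z : N} (hz : z ≠ 0) (hv : ∀ v : HeightOneSpectrum R, algebraMap k[X] R (b * P) ∉ v.asIdeal →
      IsPw q (v.valuation N z)) (hnm : ∃ y : K, Algebra.norm K z = y ^ q)
    (v : HeightOneSpectrum R) (hvP : algebraMap k[X] R P ∉ v.asIdeal) :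
    IsPw q (v.valuation N z) := by
  have hinjK := IsFractionRing.injective k[X] K
  have hinjN := IsFractionRing.injective R N
  have hAN : ∀ i, algebraMap R N (A i) ≠ 0 := fun i h0 =>
    (hA i).ne_zero (hinjN (by rw [h0, map_zero]))
  have hBN : algebraMap R N B ≠ 0 := fun h0 => hB.ne_zero (hinjN (by rw [h0, map_zero]))
  have hPK : algebraMap k[X] K P ≠ 0 := fun h0 => hPi.ne_zero (hinjK (by rw [h0, map_zero]))
  obtain ⟨h, hh, hhd, hv1⟩ := adjustQ (N := N) (zero_lt_one.trans hq)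
    (fun v => algebraMap k[X] R P ∉ v.asIdeal) b hb hpr z hz fun v hvP hvb => by
      refine hv v fun h1 => ?_
      rw [map_mul] at h1
      rcases v.isPrime.mem_or_mem h1 with h2 | h2
      · exact hvb h2
      · exact hvP h2
  have hPh : ¬ P ∣ h := fun h1 => hPb (hhd P hPi h1)
  have hhK : algebraMap k[X] K h ≠ 0 := fun h0 => hh (hinjK (by rw [h0, map_zero]))
  have e0 : algebraMap R N (algebraMap k[X] R h) = algebraMap K N (algebraMap k[X] K h) := by
    rw [← IsScalarTower.algebraMap_apply, ← IsScalarTower.algebraMap_apply]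
  rw [e0] at hv1
  have hhN : algebraMap K N (algebraMap k[X] K h) ≠ 0 := (_root_.map_ne_zero _).2 hhK
  obtain ⟨a, b', hab⟩ := adjustG (N := N) (zero_lt_one.trans hq) hA hB hBA hAA hP
    (mul_ne_zero hz hhN) hv1
  set Aa : N := ∏ i, algebraMap R N (A i) ^ a i with hAa
  have hAa0 : Aa ≠ 0 := Finset.prod_ne_zero_iff.2 fun i _ => pow_ne_zero _ (hAN i)
  obtain ⟨u, w, hu, hw, e1⟩ := hR _ (mul_ne_zero (mul_ne_zero (mul_ne_zero hz hhN) hAa0)
    (pow_ne_zero b' hBN)) hab
  obtain ⟨y, hy⟩ := hnm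
  have hy0 : y ≠ 0 := by
    rintro rfl
    rw [zero_pow (by omega)] at hy
    exact hz (Algebra.norm_eq_zero_iff.1 hy)
  -- the norms
  have hNAa : Algebra.norm K Aa = ((-1) ^ n * algebraMap k[X] K P) ^ (∑ i, d i * a i) := by
    rw [hAa, map_prod, ← Finset.prod_pow_eq_pow_sum]
    exact Finset.prod_congr rfl fun i _ => by rw [map_pow, hNA i, ← pow_mul]
  have huN : algebraMap k[X] N (C u) = algebraMap K N (algebraMap k[X] K (C u)) :=
    IsScalarTower.algebraMap_apply k[X] K N _
  have e2 := congrArg (Algebra.norm K) e1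
  rw [map_mul, map_mul, map_mul, hNAa, map_pow, hNB, hy, map_mul, huN, Algebra.norm_algebraMap,
    Algebra.norm_algebraMap, hn, map_pow] at e2
  set T : ℕ := (∑ i, d i * a i) + dB * b' with hT
  have hs1 : ((-1 : K) ^ n) ^ T * ((-1 : K) ^ n) ^ T = 1 := by
    rw [← pow_mul, ← mul_pow, neg_one_mul, neg_neg, one_pow]
  have e3 : algebraMap k[X] K P ^ T * algebraMap k[X] K h ^ n * y ^ q =
      algebraMap k[X] K (C (u ^ n * ((-1) ^ n) ^ T)) * Algebra.norm K w ^ q := by
    have h1 : ((-1) ^ n * algebraMap k[X] K P) ^ T * algebraMap k[X] K h ^ n * y ^ q =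
        algebraMap k[X] K (C u) ^ n * Algebra.norm K w ^ q := by
      rw [hT, pow_add, pow_mul _ dB b', ← e2]
      ring
    rw [mul_pow] at h1
    rw [C_mul, C_pow, map_mul, map_pow, C_pow, C_pow, C_neg, C_1, map_pow, map_pow, map_neg, map_one]
    calc algebraMap k[X] K P ^ T * algebraMap k[X] K h ^ n * y ^ q
        = (((-1 : K) ^ n) ^ T * ((-1 : K) ^ n) ^ T) *
          (algebraMap k[X] K P ^ T * algebraMap k[X] K h ^ n * y ^ q) := by
          rw [hs1, one_mul]
      _ = ((-1 : K) ^ n) ^ T *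
          (((-1 : K) ^ n) ^ T * algebraMap k[X] K P ^ T * algebraMap k[X] K h ^ n * y ^ q) := by ring
      _ = _ := by
        rw [h1]
        ring
  obtain ⟨α, β, hβ, hαβ⟩ := Pool.Agent.X261.TW.exists_frac (k := k) K (Algebra.norm K w / y)
  have hNw : Algebra.norm K w ≠ 0 := fun h0 => hw (Algebra.norm_eq_zero_iff.1 h0)
  have hβK : algebraMap k[X] K β ≠ 0 := fun h0 => hβ (hinjK (by rw [h0, map_zero]))
  have hα : α ≠ 0 := by
    rintro rfl
    rw [map_zero] at hαβ
    exact mul_ne_zero (div_ne_zero hNw hy0) hβK hαβ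
  have e4 : P ^ T * h ^ n * β ^ q = C (u ^ n * ((-1) ^ n) ^ T) * α ^ q := by
    apply hinjK
    rw [map_mul (algebraMap k[X] K), map_mul (algebraMap k[X] K), map_mul (algebraMap k[X] K),
      map_pow (algebraMap k[X] K) P, map_pow (algebraMap k[X] K) h,
      map_pow (algebraMap k[X] K) β, map_pow (algebraMap k[X] K) α, ← hαβ, mul_pow, div_pow]
    have hyq : y ^ q ≠ 0 := pow_ne_zero q hy0
    field_simp
    linear_combination e3
  obtain ⟨s, hs⟩ := dvd_exp' hPi hPh (mul_ne_zero (pow_ne_zero n hu)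
    (pow_ne_zero T (pow_ne_zero n (neg_ne_zero.2 one_ne_zero)))) hα hβ e4
  -- `h` is a `q`-th power up to a constant
  set s0 : K := algebraMap k[X] K h / algebraMap k[X] K (C (u * (-1) ^ T)) with hs0
  have hu2 : u * (-1) ^ T ≠ 0 := mul_ne_zero hu (pow_ne_zero _ (neg_ne_zero.2 one_ne_zero))
  have huK : algebraMap k[X] K (C (u * (-1) ^ T)) ≠ 0 := fun h0 =>
    hu2 (C_eq_zero.1 (hinjK (by rw [h0, map_zero])))
  have hs0' : s0 ≠ 0 := div_ne_zero hhK huK
  have hPs : algebraMap k[X] K P ^ s ≠ 0 := pow_ne_zero _ hPK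
  have e5 : s0 ^ n = (Algebra.norm K w / (algebraMap k[X] K P ^ s * y)) ^ q := by
    rw [hs0, div_pow, div_pow, div_eq_div_iff (pow_ne_zero _ huK)
      (pow_ne_zero _ (mul_ne_zero hPs hy0)), mul_pow, ← pow_mul, mul_comm s q, ← hs]
    have h1 : algebraMap k[X] K (C (u * (-1) ^ T)) ^ n =
        algebraMap k[X] K (C (u ^ n * ((-1) ^ n) ^ T)) := by
      rw [← map_pow, ← C_pow, mul_pow, ← pow_mul, ← pow_mul, mul_comm T n]
    rw [h1]
    linear_combination e3
  obtain ⟨a0, -, ha0⟩ := Nat.exists_mul_mod_eq_one_of_coprime hcop hq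
  obtain ⟨b0, hb0⟩ : ∃ b0 : ℕ, n * a0 = q * b0 + 1 := by
    refine ⟨n * a0 / q, ?_⟩
    have := Nat.div_add_mod (n * a0) q
    rw [ha0] at this
    exact this.symm
  set s1 : K := (Algebra.norm K w / (algebraMap k[X] K P ^ s * y)) ^ a0 / s0 ^ b0 with hs1'
  have e6 : s0 = s1 ^ q := by
    rw [hs1', div_pow, ← pow_mul, mul_comm a0 q, pow_mul, ← e5, ← pow_mul, hb0, ← pow_mul,
      mul_comm b0 q, pow_succ, mul_div_cancel_left₀ _ (pow_ne_zero _ hs0')]
  have hs1n : s1 ≠ 0 := by
    intro h0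
    rw [h0, zero_pow (by omega)] at e6
    exact hs0' e6
  have e7 : algebraMap k[X] K h = algebraMap k[X] K (C (u * (-1) ^ T)) * s1 ^ q := by
    rw [← e6, hs0]
    field_simp
  -- the valuation
  have h8 := hv1 v hvP
  rw [e7, map_mul (algebraMap K N), map_pow (algebraMap K N)] at h8
  have hc : v.valuation N (algebraMap K N (algebraMap k[X] K (C (u * (-1) ^ T)))) = 1 := by
    rw [← IsScalarTower.algebraMap_apply, IsScalarTower.algebraMap_apply k[X] R N,
      HeightOneSpectrum.valuation_of_algebraMap]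
    refine le_antisymm (v.intValuation_le_one _) (not_lt.1 fun hlt => ?_)
    rw [v.intValuation_lt_one_iff_mem] at hlt
    exact v.isPrime.ne_top (Ideal.eq_top_of_isUnit_mem _ hlt
      ((isUnit_C.2 (IsUnit.mk0 _ hu2)).map _))
  obtain ⟨γ, hγ⟩ := h8
  rw [map_mul (v.valuation N), map_mul (v.valuation N), map_pow (v.valuation N), hc, one_mul] at hγ
  have hsv : v.valuation N (algebraMap K N s1) ≠ 0 :=
    (Valuation.ne_zero_iff _).2 ((_root_.map_ne_zero _).2 hs1n)
  refine ⟨γ / v.valuation N (algebraMap K N s1), ?_⟩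
  rw [div_pow, ← hγ, mul_div_assoc, div_self (pow_ne_zero _ hsv), mul_one]

end reduce

end Pool.Agent.X261.MB
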